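import Pool.Agent.TH137.LP.Stmts

/-!
# Cauchy–Schwarz and translation invariance for reduced density matrix entries
-/

namespace Pool.Agent.TH137.LP

open scoped BigOperators ComplexConjugate

open Classical in
theorem t_cs : S_cs := by
  intro X R _ _ d ι φ χ α β
  set C : (X → Fin d) × (X → Fin d) → Prop := fun p =>
    (∀ r, p.1 (ι r) = α r) ∧ (∀ r, p.2 (ι r) = β r) ∧
      (∀ x, (∀ r, ι r ≠ x) → p.1 x = p.2 x) with hC
  set P : Finset ((X → Fin d) × (X → Fin d)) := Finset.univ.filter C with hP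
  have hmem : ∀ p, p ∈ P → C p := fun p hp => (Finset.mem_filter.1 hp).2
  have hRD : RD ι φ χ α β = ∑ p ∈ P, φ p.1 * conj (χ p.2) := by
    rw [hP, Finset.sum_filter]
    unfold RD
    rw [Fintype.sum_prod_type]
  have h1 : ‖RD ι φ χ α β‖ ≤ ∑ p ∈ P, ‖φ p.1‖ * ‖χ p.2‖ := by
    rw [hRD]
    refine (norm_sum_le _ _).trans (le_of_eq (Finset.sum_congr rfl fun p _ => ?_))
    rw [norm_mul, Complex.norm_conj]
  have h2 : (∑ p ∈ P, ‖φ p.1‖ * ‖χ p.2‖) ^ 2 ≤
      (∑ p ∈ P, ‖φ p.1‖ ^ 2) * (∑ p ∈ P, ‖χ p.2‖ ^ 2) :=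
    Finset.sum_mul_sq_le_sq_mul_sq P (fun p => ‖φ p.1‖) (fun p => ‖χ p.2‖)
  have inj1 : Set.InjOn Prod.fst (P : Set ((X → Fin d) × (X → Fin d))) := by
    intro p hp q hq h
    obtain ⟨p1, p2, p3⟩ := hmem p hp
    obtain ⟨q1, q2, q3⟩ := hmem q hq
    refine Prod.ext h (funext fun x => ?_)
    by_cases hx : ∀ r, ι r ≠ x
    · rw [← p3 x hx, ← q3 x hx, h]
    · push Not at hx
      obtain ⟨r, rfl⟩ := hx
      rw [p2, q2]
  have inj2 : Set.InjOn Prod.snd (P : Set ((X → Fin d) × (X → Fin d))) := by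
    intro p hp q hq h
    obtain ⟨p1, p2, p3⟩ := hmem p hp
    obtain ⟨q1, q2, q3⟩ := hmem q hq
    refine Prod.ext (funext fun x => ?_) h
    by_cases hx : ∀ r, ι r ≠ x
    · rw [p3 x hx, q3 x hx, h]
    · push Not at hx
      obtain ⟨r, rfl⟩ := hx
      rw [p1, q1]
  have h3 : ∑ p ∈ P, ‖φ p.1‖ ^ 2 ≤ nsq φ := by
    rw [← Finset.sum_image (f := fun σ : X → Fin d => ‖φ σ‖ ^ 2) (g := Prod.fst) (s := P) inj1]
    exact Finset.sum_le_sum_of_subset_of_nonneg (Finset.subset_univ _)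
      (fun _ _ _ => by positivity)
  have h4 : ∑ p ∈ P, ‖χ p.2‖ ^ 2 ≤ nsq χ := by
    rw [← Finset.sum_image (f := fun σ : X → Fin d => ‖χ σ‖ ^ 2) (g := Prod.snd) (s := P) inj2]
    exact Finset.sum_le_sum_of_subset_of_nonneg (Finset.subset_univ _)
      (fun _ _ _ => by positivity)
  calc ‖RD ι φ χ α β‖ ^ 2 ≤ (∑ p ∈ P, ‖φ p.1‖ * ‖χ p.2‖) ^ 2 :=
        pow_le_pow_left₀ (norm_nonneg _) h1 2
    _ ≤ _ := h2
    _ ≤ nsq φ * nsq χ := mul_le_mul h3 h4 (Finset.sum_nonneg fun _ _ => by positivity)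
        (Finset.sum_nonneg fun _ _ => by positivity)

open Classical in
theorem t_shift : S_shift := by
  intro d n _ ψ hψ R s α β
  obtain ⟨ω, hω, hs⟩ := hψ s
  have hωω : ω * conj ω = 1 := by
    rw [Complex.mul_conj, Complex.normSq_eq_norm_sq, hω]
    norm_num
  have hpl : ∀ r, pl n 0 R r + s = pl n s R r := by
    intro r
    ext
    · simp [pl, add_comm]
    · simp [pl, add_comm]
  let e : (Tor n → Fin d) ≃ (Tor n → Fin d) :=
    { toFun := fun c x => c (x + s)
      invFun := fun c x => c (x - s)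
      left_inv := fun c => by ext x; simp
      right_inv := fun c => by ext x; simp }
  have he : ∀ c x, e c x = c (x + s) := fun c x => rfl
  unfold RD
  symm
  rw [← Equiv.sum_comp e]
  refine Finset.sum_congr rfl fun c _ => ?_
  rw [← Equiv.sum_comp e]
  refine Finset.sum_congr rfl fun c' _ => ?_
  have hcond : ((∀ r, e c (pl n 0 R r) = α r) ∧ (∀ r, e c' (pl n 0 R r) = β r) ∧
      (∀ x, (∀ r, pl n 0 R r ≠ x) → e c x = e c' x)) ↔
      ((∀ r, c (pl n s R r) = α r) ∧ (∀ r, c' (pl n s R r) = β r) ∧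
      (∀ x, (∀ r, pl n s R r ≠ x) → c x = c' x)) := by
    refine and_congr ?_ (and_congr ?_ ?_)
    · refine forall_congr' fun r => ?_
      rw [he, hpl]
    · refine forall_congr' fun r => ?_
      rw [he, hpl]
    · constructor
      · intro h x hx
        have := h (x - s) (fun r hr => hx r (by rw [← hpl, hr]; abel))
        rwa [he, he, sub_add_cancel] at this
      · intro h x hx
        rw [he, he]
        exact h (x + s) (fun r hr => hx r (by rw [← hpl] at hr; exact add_right_cancel hr))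
  have hval : ψ (e c) * conj (ψ (e c')) = ψ c * conj (ψ c') := by
    have a1 : ψ (e c) = ω * ψ c := hs c
    have a2 : ψ (e c') = ω * ψ c' := hs c'
    rw [a1, a2, map_mul]
    linear_combination (ψ c * conj (ψ c')) * hωω
  by_cases h : ((∀ r, c (pl n s R r) = α r) ∧ (∀ r, c' (pl n s R r) = β r) ∧
      (∀ x, (∀ r, pl n s R r ≠ x) → c x = c' x))
  · rw [if_pos h, if_pos (hcond.2 h), hval]
  · rw [if_neg h, if_neg (fun h' => h (hcond.1 h'))]

end Pool.Agent.TH137.LP
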