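import Pool.Agent.TH137.LP.Defs

/-! # Walks -/
namespace Pool.Agent.TH137.LP

variable {k L : ℕ} {I : ZMod L → Fin (k + 1)}

/-- forward step inside an interval -/
theorem Valid.succ (hI : Valid k I) (x : ZMod L) (h : (I x).val + 1 < k) :
    (I (x + 1)).val = (I x).val + 1 := by
  rcases hI x with h1 | h1
  · exact h1
  · omega

/-- forward propagation -/
theorem Valid.fwd (hI : Valid k I) (x : ZMod L) : ∀ t : ℕ, (I x).val + t < k →
    (I (x + (t : ZMod L))).val = (I x).val + t := by
  intro t
  induction t with
  | zero => intro _; simp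
  | succ t ih =>
    intro h
    have h1 := ih (by omega)
    have h2 := hI.succ (x + (t : ZMod L)) (by omega)
    rw [show x + ((t + 1 : ℕ) : ZMod L) = x + (t : ZMod L) + 1 by push_cast; ring, h2, h1]
    omega

/-- backward propagation -/
theorem Valid.back (hI : Valid k I) (x : ZMod L) : ∀ t : ℕ, t ≤ (I x).val →
    (I (x - (t : ZMod L))).val = (I x).val - t := by
  intro t
  induction t with
  | zero => intro _; simp
  | succ t ih =>
    intro h
    have h1 := ih (by omega)
    have h2 := hI (x - ((t + 1 : ℕ) : ZMod L))
    rw [show x - ((t + 1 : ℕ) : ZMod L) + 1 = x - (t : ZMod L) by push_cast; ring, h1] at h2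
    omega

/-- the corner of the interval of `x` -/
theorem Valid.corner (hI : Valid k I) (x : ZMod L) :
    (I (x - (((I x).val : ℕ) : ZMod L))).val = 0 := by
  rw [hI.back x _ le_rfl]; omega

/-- forward propagation from a corner -/
theorem Valid.fwd0 (hI : Valid k I) (x : ZMod L) (h0 : (I x).val = 0) (t : ℕ) (ht : t < k) :
    (I (x + (t : ZMod L))).val = t := by
  rw [hI.fwd x t (by omega), h0]; omega

/-- within at most `k + 1 - I x` further steps there is a corner -/
theorem Valid.reset (hI : Valid k I) : ∀ (j : ℕ) (x : ZMod L), k - (I x).val = j →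
    ∃ s : ℕ, 1 ≤ s ∧ s ≤ j + 1 ∧ k ≤ (I x).val + s ∧ (I (x + (s : ZMod L))).val = 0 ∧
      ∀ t : ℕ, t < s → (I (x + (t : ZMod L))).val = (I x).val + t := by
  intro j
  induction j with
  | zero =>
    intro x hx
    have hlt := (I x).isLt
    rcases hI x with h | h
    · have := (I (x + 1)).isLt
      omega
    · refine ⟨1, le_rfl, le_rfl, h.2, by simpa using h.1, ?_⟩
      intro t ht
      have : t = 0 := by omega
      subst this; simp
  | succ j ih =>
    intro x hx
    rcases hI x with h | h
    · obtain ⟨s, h1, h2, h3, h4, h5⟩ := ih (x + 1) (by omega)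
      refine ⟨s + 1, by omega, by omega, by omega, ?_, ?_⟩
      · rw [show x + ((s + 1 : ℕ) : ZMod L) = x + 1 + (s : ZMod L) by push_cast; ring]; exact h4
      · intro t ht
        rcases Nat.eq_zero_or_pos t with rfl | htp
        · simp
        · obtain ⟨t', rfl⟩ : ∃ t', t = t' + 1 := ⟨t - 1, by omega⟩
          rw [show x + ((t' + 1 : ℕ) : ZMod L) = x + 1 + (t' : ZMod L) by push_cast; ring,
            h5 t' (by omega), h]
          omega
    · refine ⟨1, le_rfl, by omega, h.2, by simpa using h.1, ?_⟩
      intro t ht
      have : t = 0 := by omega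
      subst this; simp

/-- every run of `k + 1` consecutive positions contains a corner -/
theorem Valid.exists_corner (hI : Valid k I) (x : ZMod L) :
    ∃ s : ℕ, s ≤ k ∧ (I (x + (s : ZMod L))).val = 0 := by
  by_cases h0 : (I x).val = 0
  · exact ⟨0, by omega, by simpa using h0⟩
  · obtain ⟨s, h1, h2, h3, h4, h5⟩ := hI.reset _ x rfl
    have := (I x).isLt
    exact ⟨s, by omega, h4⟩

/-- a valid subdivision is determined by its set of corners -/
theorem Valid.ext {I' : ZMod L → Fin (k + 1)} (hI : Valid k I) (hI' : Valid k I')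
    (h : ∀ x, (I x).val = 0 ↔ (I' x).val = 0) : I = I' := by
  have key : ∀ (j : ℕ) (x : ZMod L), (I x).val = j → (I' x).val = j := by
    intro j
    induction j with
    | zero => intro x hx; exact (h x).1 hx
    | succ j ih =>
      intro x hx
      have h1 := hI (x - 1)
      have h2 := hI' (x - 1)
      rw [sub_add_cancel] at h1 h2
      have h3 : (I (x - 1)).val = j := by omega
      have h4 := ih _ h3
      have h5 : (I' x).val ≠ 0 := by
        intro h6; have := (h x).2 h6; omega
      omega
  funext x
  exact Fin.ext (key _ x rfl).symm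

/-- the number of corners is positive -/
theorem Valid.cnt_pos [NeZero L] (hI : Valid k I) : 0 < cnt k I := by
  unfold cnt
  apply Finset.card_pos.2
  exact ⟨_, by simpa using hI.corner 0⟩

end Pool.Agent.TH137.LP
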