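import Pool.Agent.TH137.LP.Stmts
import Pool.Agent.TH137.LP.Walk

/-!
# LP6: counting positions by translation
-/

namespace Pool.Agent.TH137.LP

set_option autoImplicit false

open scoped BigOperators

variable {k L : ℕ}

/-- translation of a subdivision -/
def shE (k L : ℕ) (x : ZMod L) : (ZMod L → Fin (k + 1)) ≃ (ZMod L → Fin (k + 1)) where
  toFun I y := I (y + x)
  invFun I y := I (y - x)
  left_inv I := by funext y; simp
  right_inv I := by funext y; simp

theorem Valid.sh {I : ZMod L → Fin (k + 1)} (hI : Valid k I) (x : ZMod L) :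
    Valid k (shE k L x I) := by
  intro y
  have h := hI (y + x)
  rw [show y + x + 1 = y + 1 + x by ring] at h
  exact h

theorem valid_sh (I : ZMod L → Fin (k + 1)) (x : ZMod L) : Valid k (shE k L x I) ↔ Valid k I := by
  constructor
  · intro h
    have h1 := h.sh (-x)
    have h2 : shE k L (-x) (shE k L x I) = I := by
      funext y
      show I (y + -x + x) = I y
      rw [neg_add_cancel_right]
    rwa [h2] at h1
  · exact fun h => h.sh x

theorem cnt_sh [NeZero L] (I : ZMod L → Fin (k + 1)) (x : ZMod L) :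
    cnt k (shE k L x I) = cnt k I := by
  unfold cnt
  refine Finset.card_nbij' (fun y => y + x) (fun y => y - x) ?_ ?_ ?_ ?_
  · intro y hy
    have h := (Finset.mem_filter.1 (Finset.mem_coe.1 hy)).2
    exact Finset.mem_coe.2 (Finset.mem_filter.2 ⟨Finset.mem_univ _, h⟩)
  · intro y hy
    have h := (Finset.mem_filter.1 (Finset.mem_coe.1 hy)).2
    refine Finset.mem_coe.2 (Finset.mem_filter.2 ⟨Finset.mem_univ _, ?_⟩)
    show (I (y - x + x)).val = 0
    rw [sub_add_cancel]
    exact h
  · intro y _
    simp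
  · intro y _
    simp

theorem Valid.card_le [NeZero L] {I : ZMod L → Fin (k + 1)} (hI : Valid k I) (B : Finset ℕ) :
    (Finset.univ.filter (fun x => (I x).val ∈ B)).card ≤ cnt k I * B.card := by
  refine Finset.card_le_mul_card_image_of_maps_to (f := fun x => (I x).val) ?_ _ ?_
  · intro x hx
    exact (Finset.mem_filter.1 hx).2
  · intro t _
    refine Finset.card_le_card_of_injOn (fun x => x - ((t : ℕ) : ZMod L)) ?_ ?_
    · intro x hx
      have h := (Finset.mem_filter.1 (Finset.mem_coe.1 hx)).2
      refine Finset.mem_coe.2 (Finset.mem_filter.2 ⟨Finset.mem_univ _, ?_⟩)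
      have h1 := hI.corner x
      rw [h] at h1
      exact h1
    · intro x _ y _ h
      exact sub_left_injective h

theorem Valid.mul_cnt_le [NeZero L] {I : ZMod L → Fin (k + 1)} (hI : Valid k I) :
    k * cnt k I ≤ L := by
  have h : ((Finset.univ.filter (fun x => (I x).val = 0)) ×ˢ (Finset.range k)).card ≤
      (Finset.univ : Finset (ZMod L)).card := by
    refine Finset.card_le_card_of_injOn (fun a => a.1 + ((a.2 : ℕ) : ZMod L))
      (fun _ _ => Finset.mem_coe.2 (Finset.mem_univ _)) ?_
    rintro ⟨y, t⟩ h1 ⟨y', t'⟩ h2 he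
    obtain ⟨h3, h4⟩ := Finset.mem_product.1 (Finset.mem_coe.1 h1)
    obtain ⟨h5, h6⟩ := Finset.mem_product.1 (Finset.mem_coe.1 h2)
    have e1 := hI.fwd0 y (Finset.mem_filter.1 h3).2 t (Finset.mem_range.1 h4)
    have e2 := hI.fwd0 y' (Finset.mem_filter.1 h5).2 t' (Finset.mem_range.1 h6)
    simp only at he
    rw [he, e2] at e1
    subst e1
    rw [add_right_cancel he]
  rw [Finset.card_product, Finset.card_range, Finset.card_univ, ZMod.card] at h
  unfold cnt
  rw [mul_comm]
  exact h

theorem t_cnt : S_cnt := by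
  classical
  intro k _ L _ B f hf
  set F : (ZMod L → Fin (k + 1)) → ℝ := fun I => if Valid k I then f (cnt k I) else 0 with hF
  have hF0 : ∀ I, 0 ≤ F I := by
    intro I
    simp only [hF]
    split_ifs
    · exact hf _
    · exact le_rfl
  have hFs : ∀ (x : ZMod L) I, F (shE k L x I) = F I := by
    intro x I
    simp only [hF, valid_sh, cnt_sh]
  have hL : (0 : ℝ) < L := by exact_mod_cast Nat.pos_of_ne_zero (NeZero.ne L)
  have e0 : ∀ I : ZMod L → Fin (k + 1),
      (if Valid k I ∧ (I 0).val ∈ B then f (cnt k I) else 0) =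
        F I * (if (I 0).val ∈ B then 1 else 0) := by
    intro I
    simp only [hF]
    by_cases h1 : Valid k I <;> by_cases h2 : (I 0).val ∈ B <;> simp [h1, h2]
  have e1 : ∀ x : ZMod L, ∑ I : ZMod L → Fin (k + 1), F I * (if (I 0).val ∈ B then (1 : ℝ) else 0) =
      ∑ I : ZMod L → Fin (k + 1), F I * (if (I x).val ∈ B then 1 else 0) := by
    intro x
    rw [← Equiv.sum_comp (shE k L x)]
    refine Finset.sum_congr rfl fun I _ => ?_
    rw [hFs]
    have : shE k L x I 0 = I x := by
      show I (0 + x) = I x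
      rw [zero_add]
    rw [this]
  have e2 : (L : ℝ) * ∑ I : ZMod L → Fin (k + 1), F I * (if (I 0).val ∈ B then (1 : ℝ) else 0) =
      ∑ I : ZMod L → Fin (k + 1), F I *
        ((Finset.univ.filter (fun x => (I x).val ∈ B)).card : ℝ) := by
    calc (L : ℝ) * ∑ I : ZMod L → Fin (k + 1), F I * (if (I 0).val ∈ B then (1 : ℝ) else 0)
        = ∑ x : ZMod L, ∑ I : ZMod L → Fin (k + 1), F I * (if (I x).val ∈ B then 1 else 0) := by
          rw [← Finset.sum_congr rfl fun x _ => e1 x, Finset.sum_const, Finset.card_univ,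
            ZMod.card, nsmul_eq_mul]
      _ = ∑ I : ZMod L → Fin (k + 1), ∑ x : ZMod L, F I * (if (I x).val ∈ B then 1 else 0) :=
          Finset.sum_comm
      _ = _ := by
          refine Finset.sum_congr rfl fun I _ => ?_
          rw [← Finset.mul_sum, Finset.sum_boole]
  have e3 : (k : ℝ) * ∑ I : ZMod L → Fin (k + 1), F I *
        ((Finset.univ.filter (fun x => (I x).val ∈ B)).card : ℝ) ≤
      ∑ I : ZMod L → Fin (k + 1), F I * ((B.card : ℝ) * L) := by
    rw [Finset.mul_sum]
    refine Finset.sum_le_sum fun I _ => ?_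
    by_cases hI : Valid k I
    · have h1 := hI.card_le B
      have h2 := hI.mul_cnt_le
      have h3 : k * (Finset.univ.filter (fun x => (I x).val ∈ B)).card ≤ B.card * L := by
        calc k * (Finset.univ.filter (fun x => (I x).val ∈ B)).card
            ≤ k * (cnt k I * B.card) := Nat.mul_le_mul_left _ h1
          _ = (k * cnt k I) * B.card := by ring
          _ ≤ L * B.card := Nat.mul_le_mul_right _ h2
          _ = B.card * L := by ring
      have h4 : (k : ℝ) * ((Finset.univ.filter (fun x => (I x).val ∈ B)).card : ℝ) ≤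
          (B.card : ℝ) * L := by exact_mod_cast h3
      calc (k : ℝ) * (F I * ((Finset.univ.filter (fun x => (I x).val ∈ B)).card : ℝ))
          = F I * ((k : ℝ) * ((Finset.univ.filter (fun x => (I x).val ∈ B)).card : ℝ)) := by ring
        _ ≤ _ := mul_le_mul_of_nonneg_left h4 (hF0 I)
    · have h1 : F I = 0 := by simp only [hF]; rw [if_neg hI]
      rw [h1]
      simp
  simp only [e0]
  rw [← e2, ← Finset.sum_mul] at e3
  have e4 : (L : ℝ) * ((k : ℝ) * ∑ I : ZMod L → Fin (k + 1),
      F I * (if (I 0).val ∈ B then (1 : ℝ) else 0)) ≤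
      (L : ℝ) * ((B.card : ℝ) * ∑ I : ZMod L → Fin (k + 1), F I) := by
    calc _ = (k : ℝ) * ((L : ℝ) * ∑ I : ZMod L → Fin (k + 1),
          F I * (if (I 0).val ∈ B then (1 : ℝ) else 0)) := by ring
      _ ≤ _ := e3
      _ = _ := by ring
  exact le_of_mul_le_mul_left e4 hL

end Pool.Agent.TH137.LP
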