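import Pool.Agent.TH137.LP.Stmts
import Pool.Agent.TH137.LP.Walk

/-! # LP3: decoding of the grid -/

namespace Pool.Agent.TH137.LP

theorem Dec_ne {L a k : ℕ} {z : ℤ} (hz : |z| ≤ a) (hk : a + 1 ≤ k) (hkL : k + a < L) :
    ((k : ℕ) : ZMod L) ≠ (z : ZMod L) := by
  intro h
  have h1 : ((k : ℤ) : ZMod L) = (z : ZMod L) := by push_cast; exact h
  have h2 : (L : ℤ) ∣ (k : ℤ) - z := by
    rw [← ZMod.intCast_zmod_eq_zero_iff_dvd]
    push_cast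
    push_cast at h1
    rw [h1, sub_self]
  obtain ⟨h3, h4⟩ := abs_le.1 hz
  have h5 : 0 < (k : ℤ) - z := by omega
  have h6 := Int.le_of_dvd h5 h2
  omega

/-- one direction of the decoding -/
theorem Dec_aux (h : S_occ) (d n m : ℕ) [NeZero n] (u : ℕ → Fin d) (z : Fin d)
    (ψ : (Tor n → Fin d) → ℂ) (hm : 1 ≤ m) (hmn : 3 * m ≤ n) (hz : z ≠ u 0)
    (hψ : ∀ c, ψ c ≠ 0 → Avoids m u c)
    (R : Finset (ℤ × ℤ)) (a : ℕ) (hR : ∀ r ∈ R, |r.1| ≤ a ∧ |r.2| ≤ a)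
    (L : ℕ) [NeZero L] (hL : 2 * a + 4 * n + 8 ≤ L)
    (I I' : ZMod L → Fin (n + 1)) (J J' : ZMod L → Fin (n + 2))
    (hI : Valid n I) (hJ : Valid (n + 1) J) (hI' : Valid n I') (hJ' : Valid (n + 1) J')
    (σ σ' : Tor L → Fin d) (hσ : Phi n m u z ψ I J σ ≠ 0) (hσ' : Phi n m u z ψ I' J' σ' ≠ 0)
    (heq : ∀ x, (∀ r, pl L 0 R r ≠ x) → σ x = σ' x) :
    (∀ x, (I x).val = 0 → (I' x).val = 0) ∧ (∀ y, (J y).val = 0 → (J' y).val = 0) := by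
  have key : ∀ x y : ZMod L, (I x).val = 0 → (J y).val = 0 →
      (∀ t < 2 * m, ∀ r, pl L 0 R r ≠ (x + (t : ZMod L), y)) →
      (I' x).val = 0 ∧ (J' y).val = 0 := by
    intro x y hx hy hav
    have h1 := (h d n m u z ψ hm hmn hz hψ L I J hI hJ σ hσ (x, y)).2 ⟨hx, hy⟩
    refine (h d n m u z ψ hm hmn hz hψ L I' J' hI' hJ' σ' hσ' (x, y)).1 ?_
    intro t ht
    rw [← heq _ (hav t ht)]
    exact h1 t ht
  refine ⟨fun x hx => ?_, fun y hy => ?_⟩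
  · obtain ⟨s, hs, hs0⟩ := hJ.exists_corner (((a + 1 : ℕ) : ℕ) : ZMod L)
    refine (key x _ hx hs0 fun t _ r hr => ?_).1
    have h2 := congrArg Prod.snd hr
    simp only [pl, Prod.snd_zero, zero_add] at h2
    have h3 := hR r.1 r.2
    refine Dec_ne (L := L) (k := a + 1 + s) h3.2 (by omega) (by omega) ?_
    rw [h2]
    push_cast
    ring
  · obtain ⟨s, hs, hs0⟩ := hI.exists_corner (((a + 1 : ℕ) : ℕ) : ZMod L)
    refine (key _ y hs0 hy fun t ht r hr => ?_).2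
    have h2 := congrArg Prod.fst hr
    simp only [pl, Prod.fst_zero, zero_add] at h2
    have h3 := hR r.1 r.2
    refine Dec_ne (L := L) (k := a + 1 + s + t) h3.1 (by omega) (by omega) ?_
    rw [h2]
    push_cast
    ring

theorem t_dec (h : S_occ) : S_dec := by
  intro d n m _ u z ψ hm hmn hz hψ R a hR L _ hL I I' J J' hI hJ hI' hJ' σ σ' hσ hσ' heq
  have h1 := Dec_aux h d n m u z ψ hm hmn hz hψ R a hR L hL I I' J J' hI hJ hI' hJ' σ σ' hσ hσ' heq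
  have h2 := Dec_aux h d n m u z ψ hm hmn hz hψ R a hR L hL I' I J' J hI' hJ' hI hJ σ' σ hσ' hσ
    (fun x hx => (heq x hx).symm)
  exact ⟨hI.ext hI' fun x => ⟨h1.1 x, h2.1 x⟩, hJ.ext hJ' fun x => ⟨h1.2 x, h2.2 x⟩⟩

end Pool.Agent.TH137.LP
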