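import Mathlib

/-!
# Translationally invariant PEPS are locally dense: definitions
-/

namespace Pool.Agent.TH137.LP

open scoped BigOperators ComplexConjugate

/-- Sites of the `L × L` torus. -/
abbrev Tor (L : ℕ) : Type := ZMod L × ZMod L

/-- Squared norm of a state (a function on configurations). -/
noncomputable def nsq {X : Type} [Fintype X] [DecidableEq X] {d : ℕ}
    (φ : (X → Fin d) → ℂ) : ℝ := ∑ σ : X → Fin d, ‖φ σ‖ ^ 2

open Classical in
/-- Sesquilinear form of the (unnormalised) reduced density matrix entry `(α, β)` on the sites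
`ι r`: sum of `φ σ * conj (χ σ')` over all pairs with `σ ∘ ι = α`, `σ' ∘ ι = β` and
`σ = σ'` at all sites that are not of the form `ι r`. -/
noncomputable def RD {X R : Type} [Fintype X] [DecidableEq X] {d : ℕ}
    (ι : R → X) (φ χ : (X → Fin d) → ℂ) (α β : R → Fin d) : ℂ :=
  ∑ σ : X → Fin d, ∑ σ' : X → Fin d,
    if (∀ r, σ (ι r) = α r) ∧ (∀ r, σ' (ι r) = β r) ∧ (∀ x, (∀ r, ι r ≠ x) → σ x = σ' x)
      then φ σ * conj (χ σ') else 0

/-- The translate by `s` of the finite region `R ⊆ ℤ²` in the `L × L` torus. -/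
def pl (L : ℕ) (s : Tor L) (R : Finset (ℤ × ℤ)) : R → Tor L :=
  fun r => (s.1 + (r.1.1 : ZMod L), s.2 + (r.1.2 : ZMod L))

/-- The reduced density matrix on the region `R` of the normalisation of `φ`. -/
noncomputable def rho (L : ℕ) [NeZero L] {d : ℕ} (R : Finset (ℤ × ℤ))
    (φ : (Tor L → Fin d) → ℂ) (α β : R → Fin d) : ℂ :=
  RD (pl L 0 R) φ φ α β / (nsq φ : ℂ)

/-- Sum of the absolute values of the entries of the difference of the two reduced density
matrices on `R` (this dominates the trace norm). -/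
noncomputable def dist1 {d : ℕ} {R : Finset (ℤ × ℤ)}
    (ρ ρ' : (R → Fin d) → (R → Fin d) → ℂ) : ℝ := ∑ α, ∑ β, ‖ρ α β - ρ' α β‖

/-- The translationally invariant PEPS on the `L × L` torus given by the tensor `A` with virtual
index set `V` : `h x` is the index on the edge from `x` to `x + (1,0)`, `v x` the index on the edge
from `x` to `x + (0,1)`. -/
noncomputable def peps {d : ℕ} {V : Type} [Fintype V] [DecidableEq V]
    (A : Fin d → V → V → V → V → ℂ) (L : ℕ) [NeZero L] (σ : Tor L → Fin d) : ℂ :=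
  ∑ h : Tor L → V, ∑ v : Tor L → V,
    ∏ x : Tor L, A (σ x) (h (x.1 - 1, x.2)) (h x) (v (x.1, x.2 - 1)) (v x)

/-- Cyclic subdivisions of `ZMod L` into intervals of length `k` or `k+1`; `I x` is the position of
`x` inside its interval. -/
def Valid (k : ℕ) {L : ℕ} (I : ZMod L → Fin (k + 1)) : Prop :=
  ∀ x, (I (x + 1)).val = (I x).val + 1 ∨ ((I (x + 1)).val = 0 ∧ k ≤ (I x).val + 1)

/-- number of intervals -/
def cnt (k : ℕ) {L : ℕ} [NeZero L] (I : ZMod L → Fin (k + 1)) : ℕ :=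
  (Finset.univ.filter (fun x => (I x).val = 0)).card

/-- Symbol at position `(i,j)` of a block: row `0` is the marker `u u z z z ...`, the cells
`i < n`, `1 ≤ j ≤ n` carry the configuration `c` of the `n × n` torus, all others the filler. -/
def outc {d : ℕ} (n m : ℕ) (u : ℕ → Fin d) (z : Fin d) (i j : ℕ) (c : Tor n → Fin d) : Fin d :=
  if j = 0 then (if i < 2 * m then u (i % m) else z)
  else if i < n ∧ j ≤ n then c ((i : ZMod n), ((j - 1 : ℕ) : ZMod n)) else z

/-- labels -/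
abbrev Q (n d : ℕ) : Type := Fin (n + 1) × Fin (n + 2) × (Tor n → Fin d)

open Classical in
/-- The tensor. `l` = label of the left neighbour, `r` = `t` = own label, `b` = label of the lower
neighbour. -/
noncomputable def tens {d : ℕ} (n m : ℕ) (u : ℕ → Fin d) (z : Fin d)
    (ψ : (Tor n → Fin d) → ℂ) : Fin d → Q n d → Q n d → Q n d → Q n d → ℂ :=
  fun s l r b t =>
    if t = r ∧ s = outc n m u z r.1.val r.2.1.val r.2.2 ∧
        (r.2.1 = l.2.1 ∧ ((r.1.val = l.1.val + 1 ∧ r.2.2 = l.2.2) ∨ (r.1.val = 0 ∧ n ≤ l.1.val + 1))) ∧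
        (r.1 = b.1 ∧ ((r.2.1.val = b.2.1.val + 1 ∧ r.2.2 = b.2.2) ∨
          (r.2.1.val = 0 ∧ n + 1 ≤ b.2.1.val + 1)))
      then (if r.1.val = 0 ∧ r.2.1.val = 0 then ψ r.2.2 else 1) else 0

/-- the `n × n` window whose lower left corner is `x + (0,1)` -/
def window {d : ℕ} (n : ℕ) {L : ℕ} (σ : Tor L → Fin d) (x : Tor L) : Tor n → Fin d :=
  fun a => σ (x.1 + ((a.1.val : ℕ) : ZMod L), x.2 + 1 + ((a.2.val : ℕ) : ZMod L))

/-- corner of the block of `x` -/
def corner {n L : ℕ} (I : ZMod L → Fin (n + 1)) (J : ZMod L → Fin (n + 2)) (x : Tor L) : Tor L :=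
  (x.1 - (((I x.1).val : ℕ) : ZMod L), x.2 - (((J x.2).val : ℕ) : ZMod L))

open Classical in
/-- The block product state of the grid `(I, J)`. -/
noncomputable def Phi {d : ℕ} (n m : ℕ) (u : ℕ → Fin d) (z : Fin d)
    (ψ : (Tor n → Fin d) → ℂ) {L : ℕ} [NeZero L]
    (I : ZMod L → Fin (n + 1)) (J : ZMod L → Fin (n + 2)) (σ : Tor L → Fin d) : ℂ :=
  ∏ x : Tor L,
    if σ x = outc n m u z (I x.1).val (J x.2).val (window n σ (corner I J x)) then
      (if (I x.1).val = 0 ∧ (J x.2).val = 0 then ψ (window n σ x) else 1) else 0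

/-- translation invariance up to a phase -/
def TI {L d : ℕ} (φ : (Tor L → Fin d) → ℂ) : Prop :=
  ∀ s : Tor L, ∃ ω : ℂ, ‖ω‖ = 1 ∧ ∀ c : Tor L → Fin d, φ (fun x => c (x + s)) = ω * φ c

/-- the configuration `c` of the torus `Tor n` nowhere contains the horizontal word
`u 0, ..., u (m-1)` -/
def Avoids {d n : ℕ} (m : ℕ) (u : ℕ → Fin d) (c : Tor n → Fin d) : Prop :=
  ∀ a b : ZMod n, ∃ t < m, c (a + (t : ZMod n), b) ≠ u t

open Classical in
/-- The translationally invariant Hamiltonian: sum over all translates of the interaction `h` on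
the finite set of sites `S`. -/
noncomputable def Ham {d : ℕ} (S : Finset (ℤ × ℤ)) (h : Matrix (S → Fin d) (S → Fin d) ℂ)
    (L : ℕ) [NeZero L] (σ σ' : Tor L → Fin d) : ℂ :=
  ∑ s : Tor L, if ∀ x, (∀ r, pl L s S r ≠ x) → σ x = σ' x
    then h (fun r => σ (pl L s S r)) (fun r => σ' (pl L s S r)) else 0

/-- `ψ` is a unit vector, an eigenvector of the Hamiltonian, and every vector orthogonal to `ψ` has
energy at least `E + Δ`: for Hermitian `h` and `Δ > 0` this says that `ψ` is the unique ground state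
and the spectral gap is at least `Δ`. -/
def IsGS {d : ℕ} (S : Finset (ℤ × ℤ)) (h : Matrix (S → Fin d) (S → Fin d) ℂ)
    (L : ℕ) [NeZero L] (Δ : ℝ) (ψ : (Tor L → Fin d) → ℂ) : Prop :=
  nsq ψ = 1 ∧ ∃ E : ℝ, (∀ σ, ∑ σ', Ham S h L σ σ' * ψ σ' = (E : ℂ) * ψ σ) ∧
    ∀ φ : (Tor L → Fin d) → ℂ, ∑ σ, conj (ψ σ) * φ σ = 0 →
      (E + Δ) * nsq φ ≤ (∑ σ, ∑ σ', conj (φ σ) * Ham S h L σ σ' * φ σ').re

end Pool.Agent.TH137.LP
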