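import Pool.Agent.TH137.LP.Stmts

/-! # Existence of subdivisions -/

namespace Pool.Agent.TH137.LP

namespace Ex

theorem mod_step (a w : ℕ) (ha : 0 < a) :
    ((w + 1) % a = w % a + 1 ∧ w % a + 1 < a) ∨ ((w + 1) % a = 0 ∧ w % a + 1 = a) := by
  have h1 : w + 1 = a * (w / a) + (w % a + 1) := by
    have := Nat.div_add_mod w a
    omega
  have h2 := Nat.mod_lt w ha
  have h3 : (w + 1) % a = (w % a + 1) % a := by
    conv_lhs => rw [h1]
    rw [Nat.mul_add_mod]
  rcases Nat.lt_or_ge (w % a + 1) a with h | h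
  · left
    exact ⟨by rw [h3, Nat.mod_eq_of_lt h], h⟩
  · right
    have h4 : w % a + 1 = a := by omega
    exact ⟨by rw [h3, h4, Nat.mod_self], h4⟩

/-- the position of `v` -/
def pos (k r v : ℕ) : ℕ := if v < r * (k + 1) then v % (k + 1) else (v - r * (k + 1)) % k

theorem pos_lt (k r v : ℕ) (hk : 1 ≤ k) : pos k r v < k + 1 := by
  unfold pos
  split_ifs
  · exact Nat.mod_lt _ (by omega)
  · have := Nat.mod_lt (v - r * (k + 1)) (show 0 < k by omega)
    omega

theorem pos_zero (k r : ℕ) : pos k r 0 = 0 := by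
  unfold pos
  split_ifs <;> simp

theorem pos_step (k r v : ℕ) (hk : 1 ≤ k) :
    pos k r (v + 1) = pos k r v + 1 ∨ (pos k r (v + 1) = 0 ∧ k ≤ pos k r v + 1) := by
  unfold pos
  by_cases h1 : v + 1 < r * (k + 1)
  · rw [if_pos h1, if_pos (by omega)]
    rcases mod_step (k + 1) v (by omega) with h | h
    · exact Or.inl h.1
    · exact Or.inr ⟨h.1, by omega⟩
  · by_cases h2 : v < r * (k + 1)
    · have h3 : v + 1 = r * (k + 1) := by omega
      rw [if_neg h1, if_pos h2, h3, Nat.sub_self, Nat.zero_mod]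
      right
      refine ⟨rfl, ?_⟩
      rcases mod_step (k + 1) v (by omega) with h | h
      · rw [h3, Nat.mul_mod_left] at h
        omega
      · omega
    · rw [if_neg h1, if_neg h2]
      have e : v + 1 - r * (k + 1) = (v - r * (k + 1)) + 1 := by omega
      rw [e]
      rcases mod_step k (v - r * (k + 1)) (by omega) with h | h
      · exact Or.inl h.1
      · exact Or.inr ⟨h.1, by omega⟩

end Ex

open Ex

theorem t_ex : S_ex := by
  intro k hk L _ hL
  have hL0 : 0 < L := Nat.pos_of_ne_zero (NeZero.ne L)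
  obtain ⟨q, hq⟩ : ∃ q, q = L / k := ⟨_, rfl⟩
  obtain ⟨r, hr⟩ : ∃ r, r = L % k := ⟨_, rfl⟩
  have h1 : k * q + r = L := by rw [hq, hr]; exact Nat.div_add_mod L k
  have h2 : r < k := by rw [hr]; exact Nat.mod_lt _ (by omega)
  have h3 : k ≤ q := by rw [hq]; exact (Nat.le_div_iff_mul_le (by omega)).2 hL
  refine ⟨fun x => ⟨pos k r x.val, pos_lt k r x.val hk⟩, fun x => ?_⟩
  simp only
  by_cases hx : x.val + 1 = L
  · right
    have e : (x + 1).val = 0 := by
      have e1 : x + 1 = ((x.val + 1 : ℕ) : ZMod L) := by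
        push_cast
        rw [ZMod.natCast_zmod_val]
      rw [e1, hx, ZMod.natCast_self, ZMod.val_zero]
    rw [e, pos_zero]
    refine ⟨rfl, ?_⟩
    obtain ⟨t, ht⟩ : ∃ t, q = r + 1 + t := ⟨q - (r + 1), by omega⟩
    have h4 : L = r * (k + 1) + k * t + k := by
      rw [← h1, ht]; ring
    have h5 : x.val = r * (k + 1) + (k * t + (k - 1)) := by omega
    have h6 : ¬ x.val < r * (k + 1) := by omega
    unfold pos
    rw [if_neg h6, h5, Nat.add_sub_cancel_left, Nat.mul_add_mod, Nat.mod_eq_of_lt (by omega)]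
    omega
  · have hlt : x.val + 1 < L := by
      have := ZMod.val_lt x
      omega
    have e : (x + 1).val = x.val + 1 := by
      have e1 : x + 1 = ((x.val + 1 : ℕ) : ZMod L) := by
        push_cast
        rw [ZMod.natCast_zmod_val]
      rw [e1, ZMod.val_natCast, Nat.mod_eq_of_lt hlt]
    rw [e]
    exact pos_step k r x.val hk

end Pool.Agent.TH137.LP
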