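import Pool.Agent.TH137.LP.Stmts

/-!
# Change of the virtual index set and final assembly
-/

namespace Pool.Agent.TH137.LP

open scoped BigOperators ComplexConjugate

theorem t_relabel : S_relabel := by
  intro d V W _ _ _ _ e A L _
  funext σ
  unfold peps
  refine Fintype.sum_equiv ((Equiv.refl (Tor L)).arrowCongr e) _ _ fun h => ?_
  refine Fintype.sum_equiv ((Equiv.refl (Tor L)).arrowCongr e) _ _ fun v => ?_
  rfl

namespace Fin13

variable {d : ℕ} {R : Finset (ℤ × ℤ)}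

theorem dist1_comm (a b : (R → Fin d) → (R → Fin d) → ℂ) : dist1 a b = dist1 b a := by
  unfold dist1
  exact Finset.sum_congr rfl fun α _ => Finset.sum_congr rfl fun β _ => norm_sub_rev _ _

theorem dist1_triangle (a b c : (R → Fin d) → (R → Fin d) → ℂ) :
    dist1 a c ≤ dist1 a b + dist1 b c := by
  unfold dist1
  rw [← Finset.sum_add_distrib]
  refine Finset.sum_le_sum fun α _ => ?_
  rw [← Finset.sum_add_distrib]
  refine Finset.sum_le_sum fun β _ => ?_
  have h : a α β - c α β = (a α β - b α β) + (b α β - c α β) := by ring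
  rw [h]
  exact norm_add_le _ _

theorem dist1_le (a b : (R → Fin d) → (R → Fin d) → ℂ) :
    dist1 a b ≤ (Fintype.card (R → Fin d) : ℝ) ^ 2 * dist a b := by
  unfold dist1
  have h : ∀ α β : R → Fin d, ‖a α β - b α β‖ ≤ dist a b := by
    intro α β
    rw [← dist_eq_norm]
    exact (dist_le_pi_dist (a α) (b α) β).trans (dist_le_pi_dist a b α)
  calc ∑ α : R → Fin d, ∑ β : R → Fin d, ‖a α β - b α β‖
      ≤ ∑ _α : R → Fin d, ∑ _β : R → Fin d, dist a b :=
        Finset.sum_le_sum fun α _ => Finset.sum_le_sum fun β _ => h α β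
    _ = _ := by
        rw [Finset.sum_const, Finset.sum_const, Finset.card_univ, nsmul_eq_mul, nsmul_eq_mul]
        ring

/-- entries of the reduced density matrix of a unit vector -/
theorem rho_norm_le (hcs : S_cs) (L : ℕ) [NeZero L] (φ : (Tor L → Fin d) → ℂ) (h1 : nsq φ = 1)
    (α β : R → Fin d) : ‖rho L R φ α β‖ ≤ 1 := by
  unfold rho
  rw [h1, Complex.ofReal_one, div_one]
  have h2 := hcs (Tor L) R d (pl L 0 R) φ φ α β
  rw [h1, mul_one] at h2
  nlinarith [norm_nonneg (RD (pl L 0 R) φ φ α β)]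

/-- finitely many members of a bounded sequence approximate all of them -/
theorem net (F : ℕ → (R → Fin d) → (R → Fin d) → ℂ) (n1 : ℕ)
    (hF : ∀ k, n1 ≤ k → ∀ α β, ‖F k α β‖ ≤ 1) (ε : ℝ) (hε : 0 < ε) :
    ∃ (N : ℕ) (k : Fin N → ℕ), (∀ i, n1 ≤ k i) ∧
      ∀ j, n1 ≤ j → ∃ i, dist1 (F j) (F (k i)) ≤ ε := by
  classical
  have hb : F '' {k | n1 ≤ k} ⊆ Metric.closedBall 0 1 := by
    rintro _ ⟨k, hk, rfl⟩
    rw [mem_closedBall_zero_iff, pi_norm_le_iff_of_nonneg zero_le_one]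
    intro α
    rw [pi_norm_le_iff_of_nonneg zero_le_one]
    intro β
    exact hF k hk α β
  have htb : TotallyBounded (F '' {k | n1 ≤ k}) :=
    (isCompact_closedBall (0 : (R → Fin d) → (R → Fin d) → ℂ) 1).totallyBounded.subset hb
  set C : ℝ := (Fintype.card (R → Fin d) : ℝ) ^ 2 + 1 with hC
  have hC0 : 0 < C := by positivity
  obtain ⟨t, ht1, ht2, ht3⟩ := Metric.finite_approx_of_totallyBounded htb (ε / C) (by positivity)
  have hk : ∀ y : t, ∃ k : ℕ, n1 ≤ k ∧ F k = y := fun y => ht1 y.2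
  choose k hk1 hk2 using hk
  have : Fintype t := ht2.fintype
  let en := Fintype.equivFin t
  refine ⟨Fintype.card t, fun i => k (en.symm i), fun i => hk1 _, fun j hj => ?_⟩
  have h1 := ht3 (Set.mem_image_of_mem F hj)
  simp only [Set.mem_iUnion, Metric.mem_ball] at h1
  obtain ⟨y, hy, hd⟩ := h1
  refine ⟨en ⟨y, hy⟩, ?_⟩
  simp only [Equiv.symm_apply_apply]
  rw [hk2 ⟨y, hy⟩]
  refine (dist1_le (F j) y).trans ?_
  have h2 : (Fintype.card (R → Fin d) : ℝ) ^ 2 * dist (F j) y ≤ C * (ε / C) := by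
    apply mul_le_mul _ hd.le dist_nonneg hC0.le
    rw [hC]
    linarith
  refine h2.trans ?_
  rw [mul_div_cancel₀ _ hC0.ne']

end Fin13

open Fin13

theorem t_fin : S_fin := by
  intro hcore hham hrel hcs d hd S h Δ hΔ L0 ψ hψ
  have hTI : ∀ (L : ℕ) [NeZero L], L0 ≤ L → TI (ψ L) := fun L _ hL =>
    hham d S h L Δ hΔ (ψ L) (hψ L hL)
  have hn1 : ∀ (L : ℕ) [NeZero L], L0 ≤ L → nsq (ψ L) = 1 := fun L _ hL => (hψ L hL).1
  -- the core theorem with tensors on `Fin D`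
  have hfin : ∀ (R : Finset (ℤ × ℤ)) (ε : ℝ), 0 < ε → ∃ n0 : ℕ, ∀ (n : ℕ) [NeZero n], n0 ≤ n →
      ∃ (D : ℕ) (A : Fin d → Fin D → Fin D → Fin D → Fin D → ℂ) (L1 : ℕ),
        ∀ (L : ℕ) [NeZero L], L1 ≤ L → nsq (peps A L) ≠ 0 ∧
          dist1 (rho L R (peps A L)) (rho n R (ψ n)) ≤ ε := by
    intro R ε hε
    obtain ⟨n0, h0⟩ := hcore d hd R ε hε
    refine ⟨max n0 L0, fun n _ hn => ?_⟩
    obtain ⟨A, L1, hA⟩ := h0 n (le_trans (le_max_left _ _) hn) (ψ n)
      (hTI n (le_trans (le_max_right _ _) hn)) (hn1 n (le_trans (le_max_right _ _) hn))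
    let e : Fin (Fintype.card (Q n d)) ≃ Q n d := (Fintype.equivFin (Q n d)).symm
    refine ⟨Fintype.card (Q n d), fun s a b c t => A s (e a) (e b) (e c) (e t), L1,
      fun L _ hL => ?_⟩
    rw [hrel d (Q n d) (Fin (Fintype.card (Q n d))) e A L]
    exact hA L hL
  constructor
  · intro R ε hε
    obtain ⟨n0, h0⟩ := hfin R (ε / 2) (half_pos hε)
    let n1 := max n0 L0
    obtain ⟨N, k, hk1, hk2⟩ := net (fun k => rho (k + 1) R (ψ (k + 1))) n1 (fun k hk α β =>
      rho_norm_le hcs (k + 1) (ψ (k + 1))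
        (hn1 (k + 1) (le_trans (le_max_right _ _) (hk.trans (Nat.le_succ _)))) α β)
      (ε / 2) (half_pos hε)
    have h1 : ∀ i : Fin N, ∃ (D : ℕ) (A : Fin d → Fin D → Fin D → Fin D → Fin D → ℂ) (L1 : ℕ),
        ∀ (L : ℕ) [NeZero L], L1 ≤ L → nsq (peps A L) ≠ 0 ∧
          dist1 (rho L R (peps A L)) (rho (k i + 1) R (ψ (k i + 1))) ≤ ε / 2 := fun i =>
      h0 (k i + 1) (le_trans (le_max_left _ _) ((hk1 i).trans (Nat.le_succ _)))
    choose D A L1 hA using h1
    refine ⟨N, D, A, max (n1 + 1) (Finset.univ.sup L1), fun L _ hL => ?_⟩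
    obtain ⟨j, rfl⟩ : ∃ j, L = j + 1 :=
      ⟨L - 1, (Nat.succ_pred_eq_of_pos (NeZero.pos L)).symm⟩
    have hj : n1 ≤ j := by
      have := le_trans (le_max_left _ _) hL
      omega
    obtain ⟨i, hi⟩ := hk2 j hj
    have hLi : L1 i ≤ j + 1 :=
      (Finset.le_sup (Finset.mem_univ i)).trans (le_trans (le_max_right _ _) hL)
    obtain ⟨hne, hd1⟩ := hA i (j + 1) hLi
    refine ⟨i, hne, ?_⟩
    rw [dist1_comm] at hd1
    refine (dist1_triangle _ (rho (k i + 1) R (ψ (k i + 1))) _).trans ?_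
    have h2 : dist1 (rho (j + 1) R (ψ (j + 1))) (rho (k i + 1) R (ψ (k i + 1))) ≤ ε / 2 := hi
    linarith
  · intro hconv R ε hε
    obtain ⟨n0, h0⟩ := hfin R (ε / 2) (half_pos hε)
    obtain ⟨N, hN⟩ := hconv R (ε / 2) (half_pos hε)
    obtain ⟨D, A, L1, hA⟩ := h0 (max n0 N + 1)
      (le_trans (le_max_left _ _) (Nat.le_succ _))
    refine ⟨D, A, max L1 N, fun L _ hL => ?_⟩
    obtain ⟨hne, hd1⟩ := hA L (le_trans (le_max_left _ _) hL)
    refine ⟨hne, ?_⟩
    rw [dist1_comm] at hd1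
    refine (dist1_triangle _ (rho (max n0 N + 1) R (ψ (max n0 N + 1))) _).trans ?_
    have h2 := hN L (max n0 N + 1) (le_trans (le_max_right _ _) hL)
      (le_trans (le_max_right _ _) (Nat.le_succ _))
    linarith

end Pool.Agent.TH137.LP
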