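import Pool.Agent.TH137.LP.Stmts

/-!
# LP10: unique gapped ground states are translationally invariant up to a phase
-/

set_option autoImplicit false

namespace Pool.Agent.TH137.LP

open scoped BigOperators ComplexConjugate

namespace HamTI

/-- translation of configurations -/
def tr {L d : ℕ} (s : Tor L) : (Tor L → Fin d) ≃ (Tor L → Fin d) where
  toFun c := fun x => c (x + s)
  invFun c := fun x => c (x - s)
  left_inv c := by funext x; simp
  right_inv c := by funext x; simp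

theorem tr_apply {L d : ℕ} (s : Tor L) (c : Tor L → Fin d) (x : Tor L) :
    tr s c x = c (x + s) := rfl

theorem pl_add (L : ℕ) (S : Finset (ℤ × ℤ)) (s t : Tor L) (r : S) :
    pl L t S r + s = pl L (t + s) S r := by
  unfold pl
  ext
  · simp only [Prod.fst_add]; ring
  · simp only [Prod.snd_add]; ring

theorem ham_tr {d : ℕ} (S : Finset (ℤ × ℤ)) (h : Matrix (S → Fin d) (S → Fin d) ℂ)
    (L : ℕ) [NeZero L] (s : Tor L) (σ σ' : Tor L → Fin d) :
    Ham S h L (tr s σ) (tr s σ') = Ham S h L σ σ' := by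
  classical
  unfold Ham
  refine Fintype.sum_equiv (Equiv.addRight s) _ _ fun t => ?_
  have e1 : ∀ ρ : Tor L → Fin d, (fun r : S => tr s ρ (pl L t S r)) =
      fun r => ρ (pl L (t + s) S r) := by
    intro ρ
    funext r
    rw [tr_apply, pl_add]
  have e3 : (∀ x, (∀ r, pl L t S r ≠ x) → tr s σ x = tr s σ' x) ↔
      (∀ x, (∀ r, pl L (t + s) S r ≠ x) → σ x = σ' x) := by
    constructor
    · intro H x hx
      have := H (x - s) (fun r hr => hx r (by rw [← pl_add, hr, sub_add_cancel]))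
      rw [tr_apply, tr_apply, sub_add_cancel] at this
      exact this
    · intro H x hx
      rw [tr_apply, tr_apply]
      refine H (x + s) (fun r hr => hx r ?_)
      rw [← pl_add] at hr
      exact add_right_cancel hr
  rw [Equiv.coe_addRight]
  by_cases hc : ∀ x, (∀ r, pl L (t + s) S r ≠ x) → σ x = σ' x
  · rw [if_pos hc, if_pos (e3.2 hc), e1, e1]
  · rw [if_neg hc, if_neg (fun H => hc (e3.1 H))]

end HamTI

open HamTI in
theorem t_ham : S_ham := by
  intro d S h L _ Δ hΔ ψ hGS s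
  obtain ⟨h1, E, hE, hgap⟩ := hGS
  -- the translated state
  set φ0 : (Tor L → Fin d) → ℂ := fun c => ψ (tr s c) with hφ0
  have hE0 : ∀ σ, ∑ σ', Ham S h L σ σ' * φ0 σ' = (E : ℂ) * φ0 σ := by
    intro σ
    have e1 : ∑ σ', Ham S h L σ σ' * φ0 σ' = ∑ σ', Ham S h L (tr s σ) σ' * ψ σ' := by
      refine Fintype.sum_equiv (tr s) _ _ fun σ' => ?_
      rw [ham_tr]
    rw [e1, hE]
  have hnsq0 : nsq φ0 = 1 := by
    rw [← h1]
    unfold nsq
    exact Fintype.sum_equiv (tr s) _ _ fun σ' => rfl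
  have hself : ∑ σ, conj (ψ σ) * ψ σ = 1 := by
    have : ∑ σ, conj (ψ σ) * ψ σ = ((nsq ψ : ℝ) : ℂ) := by
      unfold nsq
      push_cast
      refine Finset.sum_congr rfl fun σ _ => ?_
      rw [mul_comm, Complex.mul_conj, Complex.normSq_eq_norm_sq]
      push_cast
      rfl
    rw [this, h1, Complex.ofReal_one]
  set ω : ℂ := ∑ σ, conj (ψ σ) * φ0 σ with hω
  set φ : (Tor L → Fin d) → ℂ := fun c => φ0 c - ω * ψ c with hφ
  have horth : ∑ σ, conj (ψ σ) * φ σ = 0 := by
    have : ∀ σ, conj (ψ σ) * φ σ = conj (ψ σ) * φ0 σ - ω * (conj (ψ σ) * ψ σ) := by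
      intro σ
      simp only [hφ]
      ring
    simp_rw [this]
    rw [Finset.sum_sub_distrib, ← Finset.mul_sum, hself, ← hω, mul_one, sub_self]
  have hEφ : ∀ σ, ∑ σ', Ham S h L σ σ' * φ σ' = (E : ℂ) * φ σ := by
    intro σ
    have : ∀ σ', Ham S h L σ σ' * φ σ' =
        Ham S h L σ σ' * φ0 σ' - ω * (Ham S h L σ σ' * ψ σ') := by
      intro σ'
      simp only [hφ]
      ring
    simp_rw [this]
    rw [Finset.sum_sub_distrib, ← Finset.mul_sum, hE0, hE]
    simp only [hφ]
    ring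
  have hg := hgap φ horth
  have e2 : ∑ σ, ∑ σ', conj (φ σ) * Ham S h L σ σ' * φ σ' = ((E * nsq φ : ℝ) : ℂ) := by
    have : ∀ σ, ∑ σ', conj (φ σ) * Ham S h L σ σ' * φ σ' = (E : ℂ) * (conj (φ σ) * φ σ) := by
      intro σ
      have h3 : ∀ σ', conj (φ σ) * Ham S h L σ σ' * φ σ' =
          conj (φ σ) * (Ham S h L σ σ' * φ σ') := fun σ' => by ring
      simp_rw [h3]
      rw [← Finset.mul_sum, hEφ]
      ring
    simp_rw [this]
    rw [← Finset.mul_sum]
    unfold nsq
    push_cast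
    congr 1
    refine Finset.sum_congr rfl fun σ _ => ?_
    rw [mul_comm, Complex.mul_conj, Complex.normSq_eq_norm_sq]
    push_cast
    rfl
  rw [e2, Complex.ofReal_re] at hg
  have hnn : 0 ≤ nsq φ := by
    unfold nsq
    exact Finset.sum_nonneg fun σ _ => by positivity
  have hz : nsq φ = 0 := by
    have : Δ * nsq φ ≤ 0 := by nlinarith
    have : 0 ≤ Δ * nsq φ := by positivity
    nlinarith
  have hφz : ∀ σ, φ σ = 0 := by
    intro σ
    unfold nsq at hz
    rw [Finset.sum_eq_zero_iff_of_nonneg (fun σ _ => by positivity)] at hz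
    have := hz σ (Finset.mem_univ _)
    have h4 : ‖φ σ‖ = 0 := by
      exact pow_eq_zero_iff (two_ne_zero) |>.1 this
    exact norm_eq_zero.1 h4
  have hrel : ∀ c, φ0 c = ω * ψ c := fun c => sub_eq_zero.1 (hφz c)
  refine ⟨ω, ?_, fun c => hrel c⟩
  have h5 : nsq φ0 = ‖ω‖ ^ 2 * nsq ψ := by
    unfold nsq
    rw [Finset.mul_sum]
    refine Finset.sum_congr rfl fun σ _ => ?_
    rw [hrel σ, norm_mul, mul_pow]
  rw [hnsq0, h1, mul_one] at h5
  have h6 : 0 ≤ ‖ω‖ := norm_nonneg _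
  nlinarith [sq_nonneg (‖ω‖ - 1), sq_nonneg (‖ω‖ + 1)]

end Pool.Agent.TH137.LP
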