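import Pool.Agent.TH137.LP.Stmts
import Pool.Agent.TH137.LP.Walk

/-! # LP2: the marker occurs exactly at the corners -/

set_option autoImplicit false

namespace Pool.Agent.TH137.LP

namespace OccA

variable {d n m : ℕ} [NeZero n] {u : ℕ → Fin d} {z : Fin d} {L : ℕ}
  {I : ZMod L → Fin (n + 1)} {J : ZMod L → Fin (n + 2)} {σ : Tor L → Fin d}

theorem win (σ : Tor L → Fin d) (P Q : ZMod L) (i j t : ℕ) (hi : i + t < n) (hj : j < n) :
    window n σ (P, Q) ((i : ZMod n) + (t : ZMod n), (j : ZMod n)) =
      σ (P + (i : ZMod L) + (t : ZMod L), Q + 1 + (j : ZMod L)) := by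
  unfold window
  have h1 : ((i : ZMod n) + (t : ZMod n)).val = i + t := by
    rw [← Nat.cast_add, ZMod.val_cast_of_lt hi]
  have h2 : ((j : ℕ) : ZMod n).val = j := ZMod.val_cast_of_lt hj
  simp only [h1, h2]
  rw [Nat.cast_add, ← add_assoc]

/-- an interior row does not contain the word -/
theorem no_word (hav : ∀ P Q, (I P).val = 0 → (J Q).val = 0 → Avoids m u (window n σ (P, Q)))
    (hmn : 3 * m ≤ n) (P Q : ZMod L) (hP : (I P).val = 0) (hQ : (J Q).val = 0) (i j : ℕ)
    (hi : i + m ≤ n) (hj : j < n) (x : Tor L)
    (hx1 : x.1 = P + (i : ZMod L)) (hx2 : x.2 = Q + 1 + (j : ZMod L))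
    (h : ∀ t < m, σ (x.1 + (t : ZMod L), x.2) = u t) : False := by
  obtain ⟨t, ht, h1⟩ := hav P Q hP hQ (i : ZMod n) (j : ZMod n)
  apply h1
  rw [win σ P Q i j t (by omega) hj, ← hx1, ← hx2]
  exact h t ht

end OccA

theorem t_occ : S_occ := by
  classical
  intro d n m _ u z ψ hm hmn hz hav L _ I J hI hJ σ hσ x
  have h0 : ∀ y : Tor L, (if σ y = outc n m u z (I y.1).val (J y.2).val (window n σ (corner I J y)) then
      (if (I y.1).val = 0 ∧ (J y.2).val = 0 then ψ (window n σ y) else 1) else 0) ≠ 0 := by
    intro y
    have := Finset.prod_ne_zero_iff.1 hσ y (Finset.mem_univ _)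
    convert this using 1
  have hE : ∀ y : Tor L, σ y = outc n m u z (I y.1).val (J y.2).val (window n σ (corner I J y)) := by
    intro y
    by_contra hc
    exact h0 y (if_neg hc)
  have hW : ∀ P Q, (I P).val = 0 → (J Q).val = 0 → Avoids m u (window n σ (P, Q)) := by
    intro P Q hP hQ
    apply hav
    intro hc
    apply h0 (P, Q)
    rw [if_pos (hE (P, Q)), if_pos ⟨hP, hQ⟩, hc]
  constructor
  · intro h
    have hx0 : σ x = u 0 := by
      have := h 0 (by omega)
      rw [Nat.cast_zero, add_zero, Nat.zero_mod] at this
      exact this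
    have hjlt := (J x.2).isLt
    have hilt := (I x.1).isLt
    -- the row is a marker row
    have hj0 : (J x.2).val = 0 := by
      by_contra hj
      have hj1 : 1 ≤ (J x.2).val := by omega
      by_cases hjn : (J x.2).val = n + 1
      · have := hE x
        rw [outc, if_neg (by omega), if_neg (by omega), hx0] at this
        exact hz this.symm
      · by_cases hin : (I x.1).val = n
        · have := hE x
          rw [outc, if_neg (by omega), if_neg (by omega), hx0] at this
          exact hz this.symm
        · have hQ := hJ.corner x.2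
          have hQ2 : x.2 = x.2 - (((J x.2).val : ℕ) : ZMod L) + 1 + (((J x.2).val - 1 : ℕ) : ZMod L) := by
            rw [Nat.cast_sub hj1]
            push_cast
            ring
          by_cases hi : (I x.1).val + m ≤ n
          · refine OccA.no_word hW hmn _ _ (hI.corner x.1) hQ (I x.1).val ((J x.2).val - 1) hi
              (by omega) x (by ring) hQ2 ?_
            intro t ht
            have := h t (by omega)
            rw [Nat.mod_eq_of_lt ht] at this
            exact this
          · obtain ⟨s, h1, h2, h3, h4, h5⟩ := hI.reset _ x.1 rfl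
            have hs : s ≤ m := by omega
            refine OccA.no_word hW hmn (x.1 + (s : ZMod L)) _ h4 hQ (m - s) ((J x.2).val - 1)
              (by omega) (by omega) (x.1 + (m : ZMod L), x.2) ?_ hQ2 ?_
            · simp only
              rw [Nat.cast_sub hs]
              ring
            · intro t ht
              have := h (m + t) (by omega)
              rw [Nat.add_mod_left, Nat.mod_eq_of_lt ht] at this
              rw [← this]
              congr 2
              push_cast
              ring
    refine ⟨?_, hj0⟩
    by_contra hi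
    have hi1 : 1 ≤ (I x.1).val := by omega
    have hrow : ∀ t : ℕ, (I x.1).val + t < n → σ (x.1 + (t : ZMod L), x.2) =
        if (I x.1).val + t < 2 * m then u (((I x.1).val + t) % m) else z := by
      intro t ht
      have := hE (x.1 + (t : ZMod L), x.2)
      simp only [hj0] at this
      rw [this, outc, if_pos rfl, hI.fwd x.1 t ht]
    by_cases h2 : 2 * m ≤ (I x.1).val
    · have := hE x
      rw [outc, if_pos hj0, if_neg (by omega), hx0] at this
      exact hz this.symm
    · by_cases h1 : m ≤ (I x.1).val
      · have e1 := hrow m (by omega)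
        rw [if_neg (by omega), h m (by omega), Nat.mod_self] at e1
        exact hz e1.symm
      · have e1 := hrow (m - (I x.1).val) (by omega)
        have e2 := hrow (2 * m - (I x.1).val) (by omega)
        rw [h _ (by omega)] at e1 e2
        have a1 : (I x.1).val + (m - (I x.1).val) = m := by omega
        have a2 : (I x.1).val + (2 * m - (I x.1).val) = 2 * m := by omega
        have a3 : (2 * m - (I x.1).val) % m = (m - (I x.1).val) % m := by
          have : 2 * m - (I x.1).val = m + (m - (I x.1).val) := by omega
          rw [this, Nat.add_mod_left]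
        rw [a1, if_pos (by omega), Nat.mod_self] at e1
        rw [a2, if_neg (by omega), a3, e1] at e2
        exact hz e2.symm
  · rintro ⟨hi, hj⟩ t ht
    have := hE (x.1 + (t : ZMod L), x.2)
    simp only [hj] at this
    rw [this, outc, if_pos rfl, hI.fwd0 x.1 hi t (by omega), if_pos ht]

end Pool.Agent.TH137.LP
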