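import Pool.Agent.TH137.LP.Walk

/-!
# The support of a block state

The configurations on which the block state of a grid does not vanish are parametrised by the
contents `b` of the blocks.
-/

namespace Pool.Agent.TH137.LP

open scoped BigOperators ComplexConjugate

/-- the corners of the grid -/
abbrev Cn {n L : ℕ} (I : ZMod L → Fin (n + 1)) (J : ZMod L → Fin (n + 2)) : Type :=
  {x : Tor L // (I x.1).val = 0 ∧ (J x.2).val = 0}

section par

variable {d n m : ℕ} {L : ℕ} {I : ZMod L → Fin (n + 1)} {J : ZMod L → Fin (n + 2)}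

/-- the corner of the block of `x`, as a corner of the grid -/
def cor (hI : Valid n I) (hJ : Valid (n + 1) J) (x : Tor L) : Cn I J :=
  ⟨corner I J x, hI.corner x.1, hJ.corner x.2⟩

/-- the configuration with the contents `b` of the blocks -/
def sig (hI : Valid n I) (hJ : Valid (n + 1) J) (m : ℕ) (u : ℕ → Fin d) (z : Fin d)
    (b : Cn I J → Tor n → Fin d) : Tor L → Fin d :=
  fun x => outc n m u z (I x.1).val (J x.2).val (b (cor hI hJ x))

theorem cor_val (hI : Valid n I) (hJ : Valid (n + 1) J) (x : Tor L) :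
    (cor hI hJ x).1 = corner I J x := rfl

/-- the corner of the cell `(i, j)` of the block of the corner `k` is `k` -/
theorem corner_add (hI : Valid n I) (hJ : Valid (n + 1) J) (k : Tor L) (h1 : (I k.1).val = 0)
    (h2 : (J k.2).val = 0) (i j : ℕ) (hi : i < n) (hj : j < n + 1) :
    corner I J (k.1 + (i : ZMod L), k.2 + (j : ZMod L)) = k := by
  unfold corner
  simp only
  rw [hI.fwd0 k.1 h1 i hi, hJ.fwd0 k.2 h2 j hj, add_sub_cancel_right, add_sub_cancel_right]

theorem cor_add (hI : Valid n I) (hJ : Valid (n + 1) J) (k : Cn I J) (i j : ℕ) (hi : i < n)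
    (hj : j < n + 1) : cor hI hJ (k.1.1 + (i : ZMod L), k.1.2 + (j : ZMod L)) = k :=
  Subtype.ext (corner_add hI hJ k.1 k.2.1 k.2.2 i j hi hj)

/-- the value of `sig` at the cell `(i, j)` of the block of the corner `k` -/
theorem sig_add (hI : Valid n I) (hJ : Valid (n + 1) J) (u : ℕ → Fin d) (z : Fin d)
    (b : Cn I J → Tor n → Fin d) (k : Cn I J) (i j : ℕ) (hi : i < n) (hj : j < n + 1) :
    sig hI hJ m u z b (k.1.1 + (i : ZMod L), k.1.2 + (j : ZMod L)) =
      outc n m u z i j (b k) := by
  unfold sig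
  rw [cor_add hI hJ k i j hi hj]
  simp only
  rw [hI.fwd0 k.1.1 k.2.1 i hi, hJ.fwd0 k.1.2 k.2.2 j hj]

/-- the window of `sig` at the corner `k` is the contents of the block -/
theorem window_sig [NeZero n] (hI : Valid n I) (hJ : Valid (n + 1) J) (u : ℕ → Fin d) (z : Fin d)
    (b : Cn I J → Tor n → Fin d) (k : Cn I J) :
    window n (sig hI hJ m u z b) k.1 = b k := by
  funext a
  have ha1 : a.1.val < n := ZMod.val_lt a.1
  have ha2 : a.2.val < n := ZMod.val_lt a.2
  have e : k.1.2 + 1 + ((a.2.val : ℕ) : ZMod L) = k.1.2 + ((a.2.val + 1 : ℕ) : ZMod L) := by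
    push_cast
    ring
  unfold window
  rw [e, sig_add hI hJ u z b k a.1.val (a.2.val + 1) ha1 (by omega)]
  unfold outc
  rw [if_neg (by omega), if_pos ⟨ha1, by omega⟩, Nat.add_sub_cancel, ZMod.natCast_zmod_val,
    ZMod.natCast_zmod_val]

theorem sig_injective [NeZero n] (hI : Valid n I) (hJ : Valid (n + 1) J) (m : ℕ) (u : ℕ → Fin d)
    (z : Fin d) : Function.Injective (sig hI hJ m u z) := by
  intro b b' h
  funext k
  rw [← window_sig (m := m) hI hJ u z b k, ← window_sig (m := m) hI hJ u z b' k, h]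

/-- the block state vanishes outside of the image of `sig` -/
theorem eq_sig [NeZero L] (hI : Valid n I) (hJ : Valid (n + 1) J) {u : ℕ → Fin d} {z : Fin d}
    {ψ : (Tor n → Fin d) → ℂ} {σ : Tor L → Fin d} (h : Phi n m u z ψ I J σ ≠ 0) :
    σ = sig hI hJ m u z (fun k => window n σ k.1) := by
  funext x
  by_contra hne
  apply h
  unfold Phi
  exact Finset.prod_eq_zero (Finset.mem_univ x) (if_neg hne)

theorem exists_sig [NeZero L] (hI : Valid n I) (hJ : Valid (n + 1) J) {u : ℕ → Fin d} {z : Fin d}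
    {ψ : (Tor n → Fin d) → ℂ} {σ : Tor L → Fin d} (h : Phi n m u z ψ I J σ ≠ 0) :
    ∃ b : Cn I J → Tor n → Fin d, sig hI hJ m u z b = σ := ⟨_, (eq_sig hI hJ h).symm⟩

theorem Phi_eq_zero [NeZero L] (hI : Valid n I) (hJ : Valid (n + 1) J) {u : ℕ → Fin d} {z : Fin d}
    {ψ : (Tor n → Fin d) → ℂ} {σ : Tor L → Fin d}
    (h : ∀ b : Cn I J → Tor n → Fin d, sig hI hJ m u z b ≠ σ) : Phi n m u z ψ I J σ = 0 := by
  by_contra hne
  obtain ⟨b, hb⟩ := exists_sig hI hJ hne
  exact h b hb

/-- the value of the block state -/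
theorem Phi_sig [NeZero n] [NeZero L] (hI : Valid n I) (hJ : Valid (n + 1) J) (u : ℕ → Fin d)
    (z : Fin d) (ψ : (Tor n → Fin d) → ℂ) (b : Cn I J → Tor n → Fin d) :
    Phi n m u z ψ I J (sig hI hJ m u z b) = ∏ k : Cn I J, ψ (b k) := by
  classical
  unfold Phi
  have h : ∀ x : Tor L, sig hI hJ m u z b x = outc n m u z (I x.1).val (J x.2).val
      (window n (sig hI hJ m u z b) (corner I J x)) := by
    intro x
    have := window_sig (m := m) hI hJ u z b (cor hI hJ x)
    rw [cor_val] at this
    rw [this]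
    rfl
  rw [Finset.prod_congr rfl (fun x _ => if_pos (h x)), ← Finset.prod_filter,
    Finset.prod_subtype (p := fun x : Tor L => (I x.1).val = 0 ∧ (J x.2).val = 0) _
      (fun x => by simp)]
  exact Finset.prod_congr rfl fun k _ => by rw [window_sig]

/-- sums over configurations of functions supported on the image of `sig` -/
theorem sum_sig [NeZero n] [NeZero L] {M : Type} [AddCommMonoid M] (hI : Valid n I)
    (hJ : Valid (n + 1) J) (m : ℕ) (u : ℕ → Fin d) (z : Fin d) (F : (Tor L → Fin d) → M)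
    (hF : ∀ σ, (∀ b : Cn I J → Tor n → Fin d, sig hI hJ m u z b ≠ σ) → F σ = 0) :
    ∑ σ : Tor L → Fin d, F σ = ∑ b : Cn I J → Tor n → Fin d, F (sig hI hJ m u z b) := by
  classical
  symm
  apply Finset.sum_of_injOn (sig hI hJ m u z)
  · exact (sig_injective hI hJ m u z).injOn
  · intro b _
    simp
  · intro σ _ hσ
    apply hF
    intro b hb
    exact hσ ⟨b, by simp, hb⟩
  · intro b _
    rfl

/-- the number of the corners of the grid -/
theorem card_Cn [NeZero L] : Fintype.card (Cn I J) = cnt n I * cnt (n + 1) J := by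
  classical
  unfold cnt
  rw [Fintype.card_subtype, ← Finset.card_product]
  congr 1
  ext x
  simp

/-- sums of products over the blocks -/
theorem sum_prod [NeZero n] [NeZero L] {M : Type} [CommSemiring M]
    (f : (Tor n → Fin d) → M) :
    ∑ b : Cn I J → Tor n → Fin d, ∏ k : Cn I J, f (b k) =
      (∑ c : Tor n → Fin d, f c) ^ (cnt n I * cnt (n + 1) J) := by
  classical
  have h := Finset.prod_univ_sum (fun _ : Cn I J => (Finset.univ : Finset (Tor n → Fin d)))
    (fun _ c => f c)
  rw [Fintype.piFinset_univ] at h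
  rw [← h, Finset.prod_const, Finset.card_univ, card_Cn]

end par

end Pool.Agent.TH137.LP
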