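import Pool.Agent.TH137.LP.Stmts
import Pool.Agent.TH137.LP.Walk

/-! # LP1: the contraction of the tensor is the sum over all valid grids -/

namespace Pool.Agent.TH137.LP

open scoped BigOperators ComplexConjugate

namespace Peps

variable {d n m L : ℕ}

/-- the compatibility conditions of the tensor, `t = r` -/
def Cmp (n m : ℕ) (u : ℕ → Fin d) (z : Fin d) (s : Fin d) (l r b : Q n d) : Prop :=
  s = outc n m u z r.1.val r.2.1.val r.2.2 ∧
    (r.2.1 = l.2.1 ∧ ((r.1.val = l.1.val + 1 ∧ r.2.2 = l.2.2) ∨ (r.1.val = 0 ∧ n ≤ l.1.val + 1))) ∧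
    (r.1 = b.1 ∧ ((r.2.1.val = b.2.1.val + 1 ∧ r.2.2 = b.2.2) ∨
      (r.2.1.val = 0 ∧ n + 1 ≤ b.2.1.val + 1)))

theorem tens_ne {u : ℕ → Fin d} {z : Fin d} {ψ : (Tor n → Fin d) → ℂ} {s : Fin d}
    {l r b t : Q n d} (h : tens n m u z ψ s l r b t ≠ 0) : t = r ∧ Cmp n m u z s l r b := by
  by_contra hc
  apply h
  unfold tens
  rw [if_neg]
  exact hc

theorem tens_eq {u : ℕ → Fin d} {z : Fin d} {ψ : (Tor n → Fin d) → ℂ} {s : Fin d}
    {l r b : Q n d} (h : Cmp n m u z s l r b) : tens n m u z ψ s l r b r =
      if r.1.val = 0 ∧ r.2.1.val = 0 then ψ r.2.2 else 1 := by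
  unfold tens
  rw [if_pos]
  exact ⟨rfl, h⟩

/-- the contribution of one labelling -/
noncomputable def Wq (n m : ℕ) (u : ℕ → Fin d) (z : Fin d) (ψ : (Tor n → Fin d) → ℂ) [NeZero L]
    (σ : Tor L → Fin d) (q : Tor L → Q n d) : ℂ :=
  ∏ x : Tor L, tens n m u z ψ (σ x) (q (x.1 - 1, x.2)) (q x) (q (x.1, x.2 - 1)) (q x)

/-- the labelling of a grid -/
def ee (n : ℕ) (σ : Tor L → Fin d) (IJ : (ZMod L → Fin (n + 1)) × (ZMod L → Fin (n + 2))) :
    Tor L → Q n d :=
  fun x => (IJ.1 x.1, IJ.2 x.2, window n σ (corner IJ.1 IJ.2 x))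

theorem ee_inj (σ : Tor L → Fin d) : Function.Injective (ee n σ) := by
  rintro ⟨I, J⟩ ⟨I', J'⟩ h
  have h1 : I = I' := by
    funext a
    exact congrArg Prod.fst (congrFun h (a, 0))
  have h2 : J = J' := by
    funext b
    exact congrArg (fun t : Q n d => t.2.1) (congrFun h (0, b))
  rw [h1, h2]

theorem const_of_step [NeZero L] {α : Type} (f : ZMod L → α) (h : ∀ b, f b = f (b - 1)) (b : ZMod L) :
    f b = f 0 := by
  have key : ∀ t : ℕ, f (t : ZMod L) = f 0 := by
    intro t
    induction t with
    | zero => simp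
    | succ t ih =>
      rw [h]
      push_cast
      rw [add_sub_cancel_right]
      exact ih
  have := key b.val
  rwa [ZMod.natCast_zmod_val] at this

section range

variable [NeZero n] [NeZero L] {u : ℕ → Fin d} {z : Fin d} {σ : Tor L → Fin d} {q : Tor L → Q n d}

theorem range_aux (h : ∀ x : Tor L, Cmp n m u z (σ x) (q (x.1 - 1, x.2)) (q x) (q (x.1, x.2 - 1))) :
    q ∈ Set.range (ee n σ) := by
  set I : ZMod L → Fin (n + 1) := fun a => (q (a, 0)).1 with hI
  set J : ZMod L → Fin (n + 2) := fun b => (q (0, b)).2.1 with hJ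
  have hqI : ∀ a b : ZMod L, (q (a, b)).1 = I a := by
    intro a b
    exact const_of_step (fun b => (q (a, b)).1) (fun b => (h (a, b)).2.2.1) b
  have hqJ : ∀ a b : ZMod L, (q (a, b)).2.1 = J b := by
    intro a b
    exact const_of_step (fun a => (q (a, b)).2.1) (fun a => (h (a, b)).2.1.1) a
  have hIv : Valid n I := by
    intro x
    have h1 := (h (x + 1, 0)).2.1.2
    simp only [add_sub_cancel_right, hqI] at h1
    rcases h1 with h1 | h1
    · exact Or.inl h1.1
    · exact Or.inr h1
  have hJv : Valid (n + 1) J := by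
    intro x
    have h1 := (h (0, x + 1)).2.2.2
    simp only [add_sub_cancel_right, hqJ] at h1
    rcases h1 with h1 | h1
    · exact Or.inl h1.1
    · exact Or.inr h1
  -- constancy of the configuration on blocks
  have hc1 : ∀ (t : ℕ) (a b : ZMod L), t ≤ (I a).val →
      (q (a - (t : ZMod L), b)).2.2 = (q (a, b)).2.2 := by
    intro t
    induction t with
    | zero => intro a b _; simp
    | succ t ih =>
      intro a b ht
      have h1 := ih a b (by omega)
      have h2 := (h (a - (t : ZMod L), b)).2.1.2
      simp only [hqI] at h2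
      have h3 := hIv.back a t (by omega)
      rcases h2 with h2 | h2
      · rw [← h1, h2.2]
        congr 3
        push_cast
        ring
      · omega
  have hc2 : ∀ (t : ℕ) (a b : ZMod L), t ≤ (J b).val →
      (q (a, b - (t : ZMod L))).2.2 = (q (a, b)).2.2 := by
    intro t
    induction t with
    | zero => intro a b _; simp
    | succ t ih =>
      intro a b ht
      have h1 := ih a b (by omega)
      have h2 := (h (a, b - (t : ZMod L))).2.2.2
      simp only [hqJ] at h2
      have h3 := hJv.back b t (by omega)
      rcases h2 with h2 | h2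
      · rw [← h1, h2.2]
        congr 3
        push_cast
        ring
      · omega
  have hcc : ∀ x : Tor L, (q x).2.2 = (q (corner I J x)).2.2 := by
    intro x
    rw [corner, hc2 _ _ _ le_rfl, hc1 _ _ _ le_rfl]
  have hwin : ∀ y : Tor L, (I y.1).val = 0 → (J y.2).val = 0 → (q y).2.2 = window n σ y := by
    intro y h1 h2
    funext a
    have ha1 : a.1.val < n := ZMod.val_lt a.1
    have ha2 : a.2.val < n := ZMod.val_lt a.2
    set w : Tor L := (y.1 + ((a.1.val : ℕ) : ZMod L), y.2 + 1 + ((a.2.val : ℕ) : ZMod L)) with hw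
    have hIw : (I w.1).val = a.1.val := hIv.fwd0 y.1 h1 _ ha1
    have hJw : (J w.2).val = a.2.val + 1 := by
      have h7 := hJv.fwd0 y.2 h2 (a.2.val + 1) (by omega)
      have h8 : y.2 + ((a.2.val + 1 : ℕ) : ZMod L) = w.2 := by
        rw [hw]
        push_cast
        ring
      rw [← h8]
      exact h7
    have hcor : corner I J w = y := by
      rw [corner, hIw, hJw, hw]
      ext
      · simp
      · simp only
        push_cast
        ring
    have h3 := (h w).1
    have h4 : (q w).2.2 = (q y).2.2 := by rw [hcc w, hcor]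
    have h5 : (q w).1 = I w.1 := hqI w.1 w.2
    have h6 : (q w).2.1 = J w.2 := hqJ w.1 w.2
    rw [h4, h5, h6, hIw, hJw, outc, if_neg (by omega), if_pos (by omega)] at h3
    rw [window, ← hw, h3]
    congr 1
    ext
    simp
  refine ⟨(I, J), ?_⟩
  funext x
  unfold ee
  refine Prod.ext ?_ (Prod.ext ?_ ?_)
  · exact (hqI x.1 x.2).symm
  · exact (hqJ x.1 x.2).symm
  · show window n σ (corner I J x) = (q x).2.2
    rw [hcc x, hwin]
    · exact hIv.corner x.1
    · exact hJv.corner x.2

end range

end Peps

open Peps in
theorem t_peps : S_peps := by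
  intro d n m _ u z ψ L _ σ
  classical
  have h1 : ∀ h : Tor L → Q n d, (∑ v : Tor L → Q n d, ∏ x : Tor L,
      tens n m u z ψ (σ x) (h (x.1 - 1, x.2)) (h x) (v (x.1, x.2 - 1)) (v x)) =
        Wq n m u z ψ σ h := by
    intro h
    rw [Finset.sum_eq_single h]
    · rfl
    · intro v _ hv
      obtain ⟨x, hx⟩ := Function.ne_iff.1 hv
      apply Finset.prod_eq_zero (Finset.mem_univ x)
      by_contra hne
      exact hx (tens_ne hne).1
    · intro hh
      exact absurd (Finset.mem_univ h) hh
  unfold peps
  rw [Finset.sum_congr rfl (fun h _ => h1 h), ← Fintype.sum_prod_type']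
  symm
  refine Fintype.sum_of_injective (ee n σ) (ee_inj σ) _ _ ?_ ?_
  · intro q hq
    by_contra hne
    apply hq
    apply range_aux (m := m) (u := u) (z := z)
    intro x
    have := Finset.prod_ne_zero_iff.1 hne x (Finset.mem_univ x)
    exact (tens_ne this).2
  · rintro ⟨I, J⟩
    simp only
    by_cases hv : Valid n I ∧ Valid (n + 1) J
    · rw [if_pos hv]
      obtain ⟨hI, hJ⟩ := hv
      unfold Phi Wq
      refine Finset.prod_congr rfl fun x _ => ?_
      have e1 : (ee n σ (I, J) x).1 = I x.1 := rfl
      have e2 : (ee n σ (I, J) x).2.1 = J x.2 := rfl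
      have e3 : (ee n σ (I, J) x).2.2 = window n σ (corner I J x) := rfl
      by_cases hs : σ x = outc n m u z (I x.1).val (J x.2).val (window n σ (corner I J x))
      · rw [if_pos hs]
        have hC : Cmp n m u z (σ x) (ee n σ (I, J) (x.1 - 1, x.2)) (ee n σ (I, J) x)
            (ee n σ (I, J) (x.1, x.2 - 1)) := by
          refine ⟨hs, ⟨rfl, ?_⟩, ⟨rfl, ?_⟩⟩
          · have h2 := hI (x.1 - 1)
            rw [sub_add_cancel] at h2
            rcases h2 with h2 | h2
            · refine Or.inl ⟨h2, ?_⟩
              show window n σ (corner I J x) = window n σ (corner I J (x.1 - 1, x.2))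
              congr 1
              simp only [corner]
              rw [h2]
              ext
              · push_cast; ring
              · rfl
            · exact Or.inr h2
          · have h2 := hJ (x.2 - 1)
            rw [sub_add_cancel] at h2
            rcases h2 with h2 | h2
            · refine Or.inl ⟨h2, ?_⟩
              show window n σ (corner I J x) = window n σ (corner I J (x.1, x.2 - 1))
              congr 1
              simp only [corner]
              rw [h2]
              ext
              · rfl
              · push_cast; ring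
            · exact Or.inr h2
        rw [tens_eq hC, e1, e2, e3]
        by_cases hc : (I x.1).val = 0 ∧ (J x.2).val = 0
        · rw [if_pos hc, if_pos hc]
          congr 2
          simp [corner, hc.1, hc.2]
        · rw [if_neg hc, if_neg hc]
      · rw [if_neg hs]
        by_contra hne
        exact hs (tens_ne (Ne.symm hne)).2.1
    · rw [if_neg hv]
      symm
      by_contra hne
      apply hv
      have hall : ∀ x : Tor L, Cmp n m u z (σ x) (ee n σ (I, J) (x.1 - 1, x.2)) (ee n σ (I, J) x)
            (ee n σ (I, J) (x.1, x.2 - 1)) := by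
        intro x
        have := Finset.prod_ne_zero_iff.1 hne x (Finset.mem_univ x)
        exact (tens_ne this).2
      constructor
      · intro x
        have h2 := (hall (x + 1, 0)).2.1.2
        simp only [ee, add_sub_cancel_right] at h2
        rcases h2 with h2 | h2
        · exact Or.inl h2.1
        · exact Or.inr h2
      · intro x
        have h2 := (hall (0, x + 1)).2.2.2
        simp only [ee, add_sub_cancel_right] at h2
        rcases h2 with h2 | h2
        · exact Or.inl h2.1
        · exact Or.inr h2

end Pool.Agent.TH137.LP
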