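import Pool.Agent.TH137.LP.Defs

/-!
# Statements of the pieces
-/

namespace Pool.Agent.TH137.LP

open scoped BigOperators ComplexConjugate

/-- LP1: the contraction of the tensor is the sum over all valid grids of the block states. -/
def S_peps : Prop := ∀ (d n m : ℕ) [NeZero n] (u : ℕ → Fin d) (z : Fin d)
    (ψ : (Tor n → Fin d) → ℂ) (L : ℕ) [NeZero L] (σ : Tor L → Fin d),
    open Classical in
    peps (tens n m u z ψ) L σ =
      ∑ I : ZMod L → Fin (n + 1), ∑ J : ZMod L → Fin (n + 2),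
        if Valid n I ∧ Valid (n + 1) J then Phi n m u z ψ I J σ else 0

/-- LP2: the marker `u u` occurs exactly at the corners of the grid. -/
def S_occ : Prop := ∀ (d n m : ℕ) [NeZero n] (u : ℕ → Fin d) (z : Fin d)
    (ψ : (Tor n → Fin d) → ℂ), 1 ≤ m → 3 * m ≤ n → z ≠ u 0 → (∀ c, ψ c ≠ 0 → Avoids m u c) →
    ∀ (L : ℕ) [NeZero L] (I : ZMod L → Fin (n + 1)) (J : ZMod L → Fin (n + 2)),
      Valid n I → Valid (n + 1) J → ∀ σ : Tor L → Fin d, Phi n m u z ψ I J σ ≠ 0 →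
      ∀ x : Tor L, (∀ t < 2 * m, σ (x.1 + (t : ZMod L), x.2) = u (t % m)) ↔
        ((I x.1).val = 0 ∧ (J x.2).val = 0)

/-- LP3: the grid can be decoded from the configuration outside of `R`. -/
def S_dec : Prop := ∀ (d n m : ℕ) [NeZero n] (u : ℕ → Fin d) (z : Fin d)
    (ψ : (Tor n → Fin d) → ℂ), 1 ≤ m → 3 * m ≤ n → z ≠ u 0 → (∀ c, ψ c ≠ 0 → Avoids m u c) →
    ∀ (R : Finset (ℤ × ℤ)) (a : ℕ), (∀ r ∈ R, |r.1| ≤ a ∧ |r.2| ≤ a) →
    ∀ (L : ℕ) [NeZero L], 2 * a + 4 * n + 8 ≤ L →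
    ∀ (I I' : ZMod L → Fin (n + 1)) (J J' : ZMod L → Fin (n + 2)),
      Valid n I → Valid (n + 1) J → Valid n I' → Valid (n + 1) J' →
      ∀ σ σ' : Tor L → Fin d, Phi n m u z ψ I J σ ≠ 0 → Phi n m u z ψ I' J' σ' ≠ 0 →
      (∀ x, (∀ r, pl L 0 R r ≠ x) → σ x = σ' x) → I = I' ∧ J = J'

/-- LP4: norm of a block state. -/
def S_Z : Prop := ∀ (d n m : ℕ) [NeZero n] (u : ℕ → Fin d) (z : Fin d)
    (ψ : (Tor n → Fin d) → ℂ) (L : ℕ) [NeZero L]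
    (I : ZMod L → Fin (n + 1)) (J : ZMod L → Fin (n + 2)),
      Valid n I → Valid (n + 1) J →
      nsq (Phi n m u z ψ I J) = nsq ψ ^ (cnt n I * cnt (n + 1) J)

/-- LP5: reduced density matrix of a block state when the region lies inside one block. -/
def S_T : Prop := ∀ (d n m : ℕ) [NeZero n] (u : ℕ → Fin d) (z : Fin d)
    (ψ : (Tor n → Fin d) → ℂ) (R : Finset (ℤ × ℤ)) (a : ℕ), (∀ r ∈ R, |r.1| ≤ a ∧ |r.2| ≤ a) →
    ∀ (L : ℕ) [NeZero L], 2 * a + 4 * n + 8 ≤ L →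
    ∀ (I : ZMod L → Fin (n + 1)) (J : ZMod L → Fin (n + 2)),
      Valid n I → Valid (n + 1) J →
      a ≤ (I 0).val → (I 0).val + a < n → a + 1 ≤ (J 0).val → (J 0).val + a ≤ n →
      ∀ α β : R → Fin d,
      RD (pl L 0 R) (Phi n m u z ψ I J) (Phi n m u z ψ I J) α β =
        (nsq ψ : ℂ) ^ (cnt n I * cnt (n + 1) J - 1) *
          RD (pl n ((((I 0).val : ℕ) : ZMod n), (((J 0).val - 1 : ℕ) : ZMod n)) R) ψ ψ α β

/-- LP6: counting. -/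
def S_cnt : Prop := ∀ (k : ℕ), 1 ≤ k → ∀ (L : ℕ) [NeZero L] (B : Finset ℕ) (f : ℕ → ℝ),
    (∀ t, 0 ≤ f t) →
    open Classical in
    (k : ℝ) * ∑ I : ZMod L → Fin (k + 1), (if Valid k I ∧ (I 0).val ∈ B then f (cnt k I) else 0) ≤
      (B.card : ℝ) * ∑ I : ZMod L → Fin (k + 1), (if Valid k I then f (cnt k I) else 0)

/-- LP7: existence of subdivisions. -/
def S_ex : Prop := ∀ (k : ℕ), 1 ≤ k → ∀ (L : ℕ) [NeZero L], k * k ≤ L →
    ∃ I : ZMod L → Fin (k + 1), Valid k I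

/-- LP8: there is a word of length `m` that is rare in a translation invariant state. -/
def S_word : Prop := ∀ (d n m : ℕ) [NeZero n], 2 ≤ d → 1 ≤ m → m ≤ n →
    ∀ (ψ : (Tor n → Fin d) → ℂ), TI ψ → nsq ψ = 1 →
    ∃ u : ℕ → Fin d,
      open Classical in
      nsq (fun c => if Avoids m u c then 0 else ψ c) ≤ (n : ℝ) ^ 2 / 2 ^ m

/-- LP9a: Cauchy–Schwarz for the reduced density matrix entries. -/
def S_cs : Prop := ∀ (X R : Type) [Fintype X] [DecidableEq X] (d : ℕ) (ι : R → X)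
    (φ χ : (X → Fin d) → ℂ) (α β : R → Fin d),
    ‖RD ι φ χ α β‖ ^ 2 ≤ nsq φ * nsq χ

/-- LP9b: translation invariance of the reduced density matrices. -/
def S_shift : Prop := ∀ (d n : ℕ) [NeZero n] (ψ : (Tor n → Fin d) → ℂ), TI ψ →
    ∀ (R : Finset (ℤ × ℤ)) (s : Tor n) (α β : R → Fin d),
    RD (pl n s R) ψ ψ α β = RD (pl n 0 R) ψ ψ α β

/-- LP10: unique gapped ground states of translationally invariant Hamiltonians are translationally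
invariant up to a phase. -/
def S_ham : Prop := ∀ (d : ℕ) (S : Finset (ℤ × ℤ)) (h : Matrix (S → Fin d) (S → Fin d) ℂ)
    (L : ℕ) [NeZero L] (Δ : ℝ), 0 < Δ → ∀ (ψ : (Tor L → Fin d) → ℂ), IsGS S h L Δ ψ → TI ψ

/-- LP11: core theorem. -/
def S_core : Prop := ∀ (d : ℕ), 2 ≤ d → ∀ (R : Finset (ℤ × ℤ)) (ε : ℝ), 0 < ε →
    ∃ n0 : ℕ, ∀ (n : ℕ) [NeZero n], n0 ≤ n → ∀ (ψ : (Tor n → Fin d) → ℂ), TI ψ → nsq ψ = 1 →
    ∃ (A : Fin d → Q n d → Q n d → Q n d → Q n d → ℂ) (L1 : ℕ),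
      ∀ (L : ℕ) [NeZero L], L1 ≤ L → nsq (peps A L) ≠ 0 ∧
        dist1 (rho L R (peps A L)) (rho n R ψ) ≤ ε

/-- LP12: change of the virtual index set. -/
def S_relabel : Prop := ∀ (d : ℕ) (V W : Type) [Fintype V] [DecidableEq V] [Fintype W]
    [DecidableEq W] (e : W ≃ V) (A : Fin d → V → V → V → V → ℂ) (L : ℕ) [NeZero L],
    peps (fun s a b c t => A s (e a) (e b) (e c) (e t)) L = peps A L

/-- Conclusion, part A: finitely many tensors suffice for all large `L`. -/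
def ConclA {d : ℕ} (ψ : ∀ L : ℕ, (Tor L → Fin d) → ℂ) : Prop :=
  ∀ (R : Finset (ℤ × ℤ)) (ε : ℝ), 0 < ε →
    ∃ (N : ℕ) (D : Fin N → ℕ)
      (A : ∀ i : Fin N, Fin d → Fin (D i) → Fin (D i) → Fin (D i) → Fin (D i) → ℂ) (L1 : ℕ),
      ∀ (L : ℕ) [NeZero L], L1 ≤ L → ∃ i : Fin N, nsq (peps (A i) L) ≠ 0 ∧
        dist1 (rho L R (ψ L)) (rho L R (peps (A i) L)) ≤ ε

/-- The reduced density matrices of every finite region converge as `L → ∞` (Cauchy form). -/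
def Converges {d : ℕ} (ψ : ∀ L : ℕ, (Tor L → Fin d) → ℂ) : Prop :=
  ∀ (R : Finset (ℤ × ℤ)) (ε : ℝ), 0 < ε → ∃ N : ℕ, ∀ (L L' : ℕ) [NeZero L] [NeZero L'],
    N ≤ L → N ≤ L' → dist1 (rho L R (ψ L)) (rho L' R (ψ L')) ≤ ε

/-- Conclusion, part B: one tensor suffices for all large `L`. -/
def ConclB {d : ℕ} (ψ : ∀ L : ℕ, (Tor L → Fin d) → ℂ) : Prop :=
  ∀ (R : Finset (ℤ × ℤ)) (ε : ℝ), 0 < ε →
    ∃ (D : ℕ) (A : Fin d → Fin D → Fin D → Fin D → Fin D → ℂ) (L1 : ℕ),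
      ∀ (L : ℕ) [NeZero L], L1 ≤ L → nsq (peps A L) ≠ 0 ∧
        dist1 (rho L R (ψ L)) (rho L R (peps A L)) ≤ ε

/-- LP13: final assembly. -/
def S_fin : Prop := S_core → S_ham → S_relabel → S_cs →
    ∀ (d : ℕ), 2 ≤ d → ∀ (S : Finset (ℤ × ℤ)) (h : Matrix (S → Fin d) (S → Fin d) ℂ)
      (Δ : ℝ), 0 < Δ → ∀ (L0 : ℕ) (ψ : ∀ L : ℕ, (Tor L → Fin d) → ℂ),
      (∀ (L : ℕ) [NeZero L], L0 ≤ L → IsGS S h L Δ (ψ L)) →
      ConclA ψ ∧ (Converges ψ → ConclB ψ)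

end Pool.Agent.TH137.LP
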