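import Pool.Agent.TH137.LP.Stmts
import Pool.Agent.TH137.LP.Walk

/-!
# LP5: reduced density matrix of a block state inside one block (helper753)
-/

set_option autoImplicit false

namespace Pool.Agent.TH137.LP

open scoped BigOperators ComplexConjugate

namespace TBlock

section
variable {d n m : ℕ} [NeZero n] {L : ℕ} [NeZero L]
  {I : ZMod L → Fin (n + 1)} {J : ZMod L → Fin (n + 2)}

/-- the corners -/
abbrev TK (I : ZMod L → Fin (n + 1)) (J : ZMod L → Fin (n + 2)) : Type :=
  {x : Tor L // (I x.1).val = 0 ∧ (J x.2).val = 0}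

/-- the corner of a site -/
def ck (hI : Valid n I) (hJ : Valid (n + 1) J) (x : Tor L) : TK I J :=
  ⟨corner I J x, hI.corner x.1, hJ.corner x.2⟩

/-- the site with position `a` of the block with corner `k` -/
def site (k : Tor L) (a : Tor n) : Tor L :=
  (k.1 + ((a.1.val : ℕ) : ZMod L), k.2 + 1 + ((a.2.val : ℕ) : ZMod L))

omit [NeZero n] [NeZero L] in
theorem window_eq (σ : Tor L → Fin d) (x : Tor L) (a : Tor n) :
    window n σ x a = σ (site x a) := rfl

omit [NeZero L] in
theorem I_site (hI : Valid n I) (k : TK I J) (a : Tor n) :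
    (I (site k.1 a).1).val = a.1.val :=
  hI.fwd0 k.1.1 k.2.1 _ (ZMod.val_lt a.1)

omit [NeZero L] in
theorem J_site (hJ : Valid (n + 1) J) (k : TK I J) (a : Tor n) :
    (J (site k.1 a).2).val = a.2.val + 1 := by
  have h := hJ.fwd0 k.1.2 k.2.2 (a.2.val + 1) (by have := ZMod.val_lt a.2; omega)
  have e : (site k.1 a).2 = k.1.2 + ((a.2.val + 1 : ℕ) : ZMod L) := by
    unfold site
    push_cast
    ring
  rw [e]
  exact h

omit [NeZero L] in
theorem ck_site (hI : Valid n I) (hJ : Valid (n + 1) J) (k : TK I J) (a : Tor n) :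
    ck hI hJ (site k.1 a) = k := by
  apply Subtype.ext
  unfold ck corner
  simp only
  rw [I_site hI, J_site hJ]
  unfold site
  ext
  · simp
  · push_cast
    ring

omit [NeZero L] in
theorem site_inj (hI : Valid n I) (hJ : Valid (n + 1) J) (k : TK I J) {a a' : Tor n}
    (h : site k.1 a = site k.1 a') : a = a' := by
  have h1 := I_site (J := J) hI k a
  have h2 := I_site (J := J) hI k a'
  have h3 := J_site (I := I) hJ k a
  have h4 := J_site (I := I) hJ k a'
  rw [h] at h1 h3
  ext
  · exact ZMod.val_injective n (h1.symm.trans h2)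
  · apply ZMod.val_injective n
    omega

/-- the configuration with contents `b` -/
def sig (m : ℕ) (u : ℕ → Fin d) (z : Fin d) (hI : Valid n I) (hJ : Valid (n + 1) J)
    (b : TK I J → (Tor n → Fin d)) : Tor L → Fin d :=
  fun x => outc n m u z (I x.1).val (J x.2).val (b (ck hI hJ x))

omit [NeZero L] in
theorem sig_site (u : ℕ → Fin d) (z : Fin d) (hI : Valid n I) (hJ : Valid (n + 1) J)
    (b : TK I J → (Tor n → Fin d)) (k : TK I J) (a : Tor n) :
    sig m u z hI hJ b (site k.1 a) = b k a := by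
  unfold sig outc
  rw [ck_site, I_site hI, J_site hJ]
  have h1 := ZMod.val_lt a.1
  have h2 := ZMod.val_lt a.2
  rw [if_neg (by omega), if_pos ⟨h1, by omega⟩]
  congr 1
  ext
  · simp
  · simp

omit [NeZero L] in
theorem window_sig (u : ℕ → Fin d) (z : Fin d) (hI : Valid n I) (hJ : Valid (n + 1) J)
    (b : TK I J → (Tor n → Fin d)) (k : TK I J) :
    window n (sig m u z hI hJ b) k.1 = b k := by
  funext a
  rw [window_eq, sig_site]

omit [NeZero L] in
theorem sig_injective (u : ℕ → Fin d) (z : Fin d) (hI : Valid n I) (hJ : Valid (n + 1) J) :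
    Function.Injective (sig m u z hI hJ) := by
  intro b b' h
  funext k
  rw [← window_sig (m := m) u z hI hJ b k, h, window_sig]

omit [NeZero L] in
theorem dich (m : ℕ) (u : ℕ → Fin d) (z : Fin d) (hI : Valid n I) (hJ : Valid (n + 1) J)
    (x : Tor L) : (∃ a : Tor n, x = site (ck hI hJ x).1 a) ∨
      ∀ b b' : TK I J → (Tor n → Fin d), sig m u z hI hJ b x = sig m u z hI hJ b' x := by
  by_cases h : (J x.2).val ≠ 0 ∧ (I x.1).val < n ∧ (J x.2).val ≤ n
  · left
    refine ⟨(((I x.1).val : ZMod n), (((J x.2).val - 1 : ℕ) : ZMod n)), ?_⟩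
    unfold site ck corner
    simp only
    rw [ZMod.val_natCast_of_lt h.2.1, ZMod.val_natCast_of_lt (by omega)]
    ext
    · simp
    · simp only
      have e : (((J x.2).val : ℕ) : ZMod L) = (((J x.2).val - 1 : ℕ) : ZMod L) + 1 := by
        have h1 : (J x.2).val = ((J x.2).val - 1) + 1 := by omega
        conv_lhs => rw [h1]
        push_cast
        ring
      rw [e]
      ring
  · right
    intro b b'
    unfold sig outc
    by_cases h0 : (J x.2).val = 0
    · rw [if_pos h0, if_pos h0]
    · rw [if_neg h0, if_neg h0, if_neg (fun hc => h ⟨h0, hc⟩), if_neg (fun hc => h ⟨h0, hc⟩)]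

open Classical in
theorem Phi_sig (u : ℕ → Fin d) (z : Fin d) (ψ : (Tor n → Fin d) → ℂ) (hI : Valid n I)
    (hJ : Valid (n + 1) J) (b : TK I J → (Tor n → Fin d)) :
    Phi n m u z ψ I J (sig m u z hI hJ b) = ∏ k : TK I J, ψ (b k) := by
  unfold Phi
  have h1 : ∀ x : Tor L, sig m u z hI hJ b x = outc n m u z (I x.1).val (J x.2).val
      (window n (sig m u z hI hJ b) (corner I J x)) := by
    intro x
    have h2 := window_sig (m := m) u z hI hJ b (ck hI hJ x)
    have h3 : (ck hI hJ x).1 = corner I J x := rfl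
    rw [h3] at h2
    rw [h2]
    rfl
  rw [Finset.prod_congr rfl (fun x _ => if_pos (h1 x)), ← Finset.prod_filter,
    Finset.prod_subtype (p := fun x : Tor L => (I x.1).val = 0 ∧ (J x.2).val = 0) _
      (fun x => by simp)]
  refine Finset.prod_congr rfl fun k _ => ?_
  rw [window_sig]

open Classical in
theorem Phi_supp (u : ℕ → Fin d) (z : Fin d) (ψ : (Tor n → Fin d) → ℂ) (hI : Valid n I)
    (hJ : Valid (n + 1) J) (σ : Tor L → Fin d) (h : Phi n m u z ψ I J σ ≠ 0) :
    σ ∈ Set.range (sig m u z hI hJ) := by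
  refine ⟨fun k => window n σ k.1, ?_⟩
  funext x
  unfold Phi at h
  rw [Finset.prod_ne_zero_iff] at h
  have h1 := h x (Finset.mem_univ x)
  by_contra hc
  apply h1
  rw [if_neg]
  intro h2
  exact hc h2.symm

open Classical in
theorem RD_sum (u : ℕ → Fin d) (z : Fin d) (ψ : (Tor n → Fin d) → ℂ) (hI : Valid n I)
    (hJ : Valid (n + 1) J) {R : Type} (ι : R → Tor L) (α β : R → Fin d) :
    RD ι (Phi n m u z ψ I J) (Phi n m u z ψ I J) α β =
      ∑ b : TK I J → (Tor n → Fin d), ∑ b' : TK I J → (Tor n → Fin d),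
        if (∀ r, sig m u z hI hJ b (ι r) = α r) ∧ (∀ r, sig m u z hI hJ b' (ι r) = β r) ∧
          (∀ x, (∀ r, ι r ≠ x) → sig m u z hI hJ b x = sig m u z hI hJ b' x) then
          (∏ k : TK I J, ψ (b k)) * conj (∏ k : TK I J, ψ (b' k)) else 0 := by
  unfold RD
  symm
  refine Fintype.sum_of_injective (sig m u z hI hJ) (sig_injective u z hI hJ) _ _ ?_ ?_
  · intro σ hσ
    have h0 : Phi n m u z ψ I J σ = 0 := by
      by_contra hc
      exact hσ (Phi_supp u z ψ hI hJ σ hc)
    refine Finset.sum_eq_zero fun σ' _ => ?_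
    rw [h0, zero_mul, ite_self]
  · intro b
    refine Fintype.sum_of_injective (sig m u z hI hJ) (sig_injective u z hI hJ) _ _ ?_ ?_
    · intro σ hσ
      have h0 : Phi n m u z ψ I J σ = 0 := by
        by_contra hc
        exact hσ (Phi_supp u z ψ hI hJ σ hc)
      rw [h0, map_zero, mul_zero, ite_self]
    · intro b'
      rw [Phi_sig, Phi_sig]

theorem card_TK : Fintype.card (TK I J) = cnt n I * cnt (n + 1) J := by
  classical
  rw [Fintype.card_congr (Equiv.subtypeProdEquivProd (p := fun x : ZMod L => (I x).val = 0)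
    (q := fun y : ZMod L => (J y).val = 0)), Fintype.card_prod, Fintype.card_subtype,
    Fintype.card_subtype]
  rfl

end

open Classical in
/-- factorisation of a double sum over functions -/
theorem fact {K C : Type} [Fintype K] [DecidableEq K] [Fintype C] (k0 : K) (ψ : C → ℂ) (P : C → C → Prop) :
    (∑ b : K → C, ∑ b' : K → C, if (∀ k, k ≠ k0 → b k = b' k) ∧ P (b k0) (b' k0) then
      (∏ k, ψ (b k)) * conj (∏ k, ψ (b' k)) else 0) =
      (∑ c, ψ c * conj (ψ c)) ^ (Fintype.card K - 1) *
        ∑ c, ∑ c', if P c c' then ψ c * conj (ψ c') else 0 := by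
  have h1 : ∀ b b' : K → C, (if (∀ k, k ≠ k0 → b k = b' k) ∧ P (b k0) (b' k0) then
      (∏ k, ψ (b k)) * conj (∏ k, ψ (b' k)) else 0) =
      ∏ k, (if (if k = k0 then P (b k) (b' k) else b k = b' k) then
        ψ (b k) * conj (ψ (b' k)) else 0) := by
    intro b b'
    by_cases h : (∀ k, k ≠ k0 → b k = b' k) ∧ P (b k0) (b' k0)
    · rw [if_pos h, map_prod, ← Finset.prod_mul_distrib]
      refine Finset.prod_congr rfl fun k _ => ?_
      rw [if_pos]
      by_cases hk : k = k0
      · rw [if_pos hk, hk]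
        exact h.2
      · rw [if_neg hk]
        exact h.1 k hk
    · rw [if_neg h]
      symm
      have h2 : ∃ k, ¬ (if k = k0 then P (b k) (b' k) else b k = b' k) := by
        by_contra hc
        push Not at hc
        apply h
        constructor
        · intro k hk
          have := hc k
          rwa [if_neg hk] at this
        · have := hc k0
          rwa [if_pos rfl] at this
      obtain ⟨k, hk⟩ := h2
      exact Finset.prod_eq_zero (Finset.mem_univ k) (if_neg hk)
  simp only [h1]
  have h2 : ∀ b : K → C, ∑ b' : K → C, ∏ k, (if (if k = k0 then P (b k) (b' k) else b k = b' k)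
      then ψ (b k) * conj (ψ (b' k)) else 0) =
      ∏ k, ∑ c', (if (if k = k0 then P (b k) c' else b k = c') then
        ψ (b k) * conj (ψ c') else 0) := by
    intro b
    rw [Finset.prod_univ_sum, Fintype.piFinset_univ]
  simp only [h2]
  have h3 : ∑ b : K → C, ∏ k, ∑ c', (if (if k = k0 then P (b k) c' else b k = c') then
        ψ (b k) * conj (ψ c') else 0) =
      ∏ k, ∑ c, ∑ c', (if (if k = k0 then P c c' else c = c') then
        ψ c * conj (ψ c') else 0) := by
    rw [Finset.prod_univ_sum, Fintype.piFinset_univ]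
  rw [h3, ← Finset.prod_erase_mul _ _ (Finset.mem_univ k0)]
  congr 1
  · have h4 : ∀ k ∈ Finset.univ.erase k0, (∑ c, ∑ c', (if (if k = k0 then P c c' else c = c') then
        ψ c * conj (ψ c') else 0)) = ∑ c, ψ c * conj (ψ c) := by
      intro k hk
      refine Finset.sum_congr rfl fun c _ => ?_
      rw [Finset.sum_eq_single c]
      · rw [if_pos]
        rw [if_neg (Finset.ne_of_mem_erase hk)]
      · intro c' _ hc'
        rw [if_neg]
        rw [if_neg (Finset.ne_of_mem_erase hk)]
        exact Ne.symm hc'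
      · intro h
        exact absurd (Finset.mem_univ c) h
    rw [Finset.prod_congr rfl h4, Finset.prod_const, Finset.card_erase_of_mem (Finset.mem_univ k0),
      Finset.card_univ]
  · refine Finset.sum_congr rfl fun c _ => Finset.sum_congr rfl fun c' _ => ?_
    exact if_congr (Iff.of_eq (if_pos rfl)) rfl rfl

theorem nsq_eq {X : Type} [Fintype X] [DecidableEq X] {d : ℕ} (φ : (X → Fin d) → ℂ) :
    (nsq φ : ℂ) = ∑ c, φ c * conj (φ c) := by
  unfold nsq
  push_cast
  refine Finset.sum_congr rfl fun c _ => ?_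
  rw [Complex.mul_conj, Complex.normSq_eq_norm_sq]
  push_cast
  rfl

end TBlock

open TBlock in
open Classical in
theorem t_T : S_T := by
  intro d n m _ u z ψ R a hR L _ _ I J hI hJ h1 h2 h3 h4 α β
  obtain ⟨k0, hk0⟩ : ∃ k0 : TK I J, k0 = ck hI hJ (0 : Tor L) := ⟨_, rfl⟩
  obtain ⟨s, hs⟩ : ∃ s : Tor n, s = ((((I 0).val : ℕ) : ZMod n),
    (((J 0).val - 1 : ℕ) : ZMod n)) := ⟨_, rfl⟩
  rw [← hs]
  have geo : ∀ r, pl L 0 R r = site k0.1 (pl n s R r) := by
    intro r
    have hr := hR r.1 r.2
    obtain ⟨i, hi⟩ : ∃ i : ℕ, (i : ℤ) = (I 0).val + r.1.1 := by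
      refine ⟨((I 0).val + r.1.1).toNat, ?_⟩
      rw [Int.toNat_of_nonneg]
      have := (abs_le.1 hr.1).1
      omega
    obtain ⟨j, hj⟩ : ∃ j : ℕ, (j : ℤ) = (J 0).val + r.1.2 - 1 := by
      refine ⟨((J 0).val + r.1.2 - 1).toNat, ?_⟩
      rw [Int.toNat_of_nonneg]
      have := (abs_le.1 hr.2).1
      omega
    have hi2 : i < n := by
      have := (abs_le.1 hr.1).2
      omega
    have hj2 : j < n := by
      have := (abs_le.1 hr.2).2
      omega
    have e1 : (pl n s R r).1 = ((i : ℕ) : ZMod n) := by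
      have h5 : ((i : ℤ) : ZMod n) = (((I 0).val + r.1.1 : ℤ) : ZMod n) := by rw [hi]
      rw [hs]
      unfold pl
      push_cast at h5 ⊢
      exact h5.symm
    have e2 : (pl n s R r).2 = ((j : ℕ) : ZMod n) := by
      have h6 : ((((J 0).val - 1 : ℕ) : ℤ)) = (J 0).val - 1 := by omega
      have h5 : ((j : ℤ) : ZMod n) = (((((J 0).val - 1 : ℕ) : ℤ) + r.1.2 : ℤ) : ZMod n) := by
        rw [h6, hj]
        congr 1
        ring
      rw [hs]
      unfold pl
      push_cast at h5 ⊢
      exact h5.symm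
    unfold site
    rw [e1, e2, ZMod.val_natCast_of_lt hi2, ZMod.val_natCast_of_lt hj2, hk0]
    unfold ck corner pl
    have h7 : ((i : ℤ) : ZMod L) = (((I 0).val + r.1.1 : ℤ) : ZMod L) := by rw [hi]
    have h8 : ((j : ℤ) : ZMod L) = (((J 0).val + r.1.2 - 1 : ℤ) : ZMod L) := by rw [hj]
    push_cast at h7 h8
    ext
    · show (0 : ZMod L) + (r.1.1 : ZMod L) = (0 - (((I 0).val : ℕ) : ZMod L)) + (i : ZMod L)
      rw [h7]
      ring
    · show (0 : ZMod L) + (r.1.2 : ZMod L) =
        (0 - (((J 0).val : ℕ) : ZMod L)) + 1 + (j : ZMod L)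
      rw [h8]
      ring
  have hck : ∀ r, ck hI hJ (pl L 0 R r) = k0 := by
    intro r
    rw [geo, ck_site]
  rw [RD_sum u z ψ hI hJ]
  have hcond : ∀ b b' : TK I J → (Tor n → Fin d),
      ((∀ r, sig m u z hI hJ b (pl L 0 R r) = α r) ∧
        (∀ r, sig m u z hI hJ b' (pl L 0 R r) = β r) ∧
        (∀ x, (∀ r, pl L 0 R r ≠ x) → sig m u z hI hJ b x = sig m u z hI hJ b' x)) ↔
      ((∀ k, k ≠ k0 → b k = b' k) ∧ ((∀ r, b k0 (pl n s R r) = α r) ∧
        (∀ r, b' k0 (pl n s R r) = β r) ∧
        (∀ y, (∀ r, pl n s R r ≠ y) → b k0 y = b' k0 y))) := by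
    intro b b'
    have g1 : ∀ c : TK I J → (Tor n → Fin d), ∀ r, sig m u z hI hJ c (pl L 0 R r) =
        c k0 (pl n s R r) := by
      intro c r
      rw [geo, sig_site]
    simp only [g1]
    constructor
    · rintro ⟨ha, hb, hc⟩
      refine ⟨?_, ha, hb, ?_⟩
      · intro k hk
        funext y
        have h5 := hc (site k.1 y) (fun r hr => hk (by
          rw [← ck_site hI hJ k y, ← hr, hck]))
        rwa [sig_site, sig_site] at h5
      · intro y hy
        have h5 := hc (site k0.1 y) (fun r hr => hy r (by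
          rw [geo] at hr
          exact site_inj hI hJ k0 hr))
        rwa [sig_site, sig_site] at h5
    · rintro ⟨ha, hb, hc, hd⟩
      refine ⟨hb, hc, ?_⟩
      intro x hx
      rcases dich m u z hI hJ x with ⟨y, hy⟩ | h5
      · rw [hy, sig_site, sig_site]
        by_cases hk : ck hI hJ x = k0
        · rw [hk]
          apply hd
          intro r hr
          apply hx r
          rw [geo, hr, hy, hk]
        · rw [ha _ hk]
      · exact h5 b b'
  have e := fact k0 ψ (fun c c' => (∀ r, c (pl n s R r) = α r) ∧ (∀ r, c' (pl n s R r) = β r) ∧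
    (∀ y, (∀ r, pl n s R r ≠ y) → c y = c' y))
  rw [← card_TK (I := I) (J := J), nsq_eq]
  unfold RD
  refine Eq.trans ?_ (e.trans ?_)
  · refine Finset.sum_congr rfl fun b _ => Finset.sum_congr rfl fun b' _ => ?_
    split_ifs with g1 g2 g2
    · rfl
    · exact absurd ((hcond b b').1 g1) g2
    · exact absurd ((hcond b b').2 g2) g1
    · rfl
  · refine congrArg _ (Finset.sum_congr rfl fun c _ => Finset.sum_congr rfl fun c' _ => ?_)
    split_ifs <;> rfl

end Pool.Agent.TH137.LP
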