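import Pool.Agent.TH137.LP.Stmts
import Pool.Agent.TH137.LP.Par

/-! # The norm of a block state -/

namespace Pool.Agent.TH137.LP

open scoped BigOperators ComplexConjugate

theorem t_Z : S_Z := by
  intro d n m _ u z ψ L _ I J hI hJ
  unfold nsq
  rw [sum_sig hI hJ m u z (fun σ => ‖Phi n m u z ψ I J σ‖ ^ 2)
    (fun σ h => by simp only [Phi_eq_zero hI hJ h, norm_zero]; norm_num)]
  have h : ∀ b : Cn I J → Tor n → Fin d, ‖Phi n m u z ψ I J (sig hI hJ m u z b)‖ ^ 2 =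
      ∏ k : Cn I J, ‖ψ (b k)‖ ^ 2 := by
    intro b
    rw [Phi_sig, norm_prod, Finset.prod_pow]
  rw [Finset.sum_congr rfl (fun b _ => h b), sum_prod (fun c => ‖ψ c‖ ^ 2)]

end Pool.Agent.TH137.LP
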